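import Pool.Agent.Lib.MP_651af7_nt.Ds.Defs

/-! A smooth plane cubic in Weierstrass form is an abelian variety. -/

namespace Pool.Agent.Lib.MP_651af7_nt.El

open MvPolynomial WeierstrassCurve WeierstrassCurve.Projective

variable {F : Type} [Field F]

section hom

variable {σ M : Type} [AddCommMonoid M] {w : σ → M}

theorem wh_eq {p : MvPolynomial σ F} {m n : M} (h : p.IsWeightedHomogeneous w m) (e : m = n) :
    p.IsWeightedHomogeneous w n := e ▸ h

theorem wh_neg (W : WeierstrassCurve F) {P : Fin 3 → MvPolynomial σ F} {a : M}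
    (hP : ∀ i, (P i).IsWeightedHomogeneous w a) (i : Fin 3) :
    ((W.map C).toProjective.neg P i).IsWeightedHomogeneous w a := by
  fin_cases i
  · exact hP 0
  · exact ((hP 1).neg.sub ((hP 0).C_mul _)).sub ((hP 2).C_mul _)
  · exact hP 2

theorem wh_add (W : WeierstrassCurve F) {P Q : Fin 3 → MvPolynomial σ F} {a b : M}
    (hP : ∀ i, (P i).IsWeightedHomogeneous w a) (hQ : ∀ i, (Q i).IsWeightedHomogeneous w b)
    (i : Fin 3) :
    ((W.map C).toProjective.addXYZ P Q i).IsWeightedHomogeneous w (2 • a + 2 • b) := by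
  have h2 : (2 : MvPolynomial σ F).IsWeightedHomogeneous w 0 := isWeightedHomogeneous_C w 2
  have h3 : (3 : MvPolynomial σ F).IsWeightedHomogeneous w 0 := isWeightedHomogeneous_C w 3
  have key : ((W.map C).toProjective.addX P Q).IsWeightedHomogeneous w (2 • a + 2 • b) ∧
      ((W.map C).toProjective.negAddY P Q).IsWeightedHomogeneous w (2 • a + 2 • b) ∧
      ((W.map C).toProjective.addZ P Q).IsWeightedHomogeneous w (2 • a + 2 • b) := by
    simp only [addX, negAddY, addZ, map_a₁, map_a₂, map_a₃, map_a₄, map_a₆]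
    refine ⟨?_, ?_, ?_⟩
    all_goals
      repeat' with_reducible_and_instances first
        | apply IsWeightedHomogeneous.sub | apply IsWeightedHomogeneous.add
      all_goals
        apply wh_eq
        · repeat' with_reducible_and_instances first
            | exact hP _ | exact hQ _ | exact h2 | exact h3 | exact isWeightedHomogeneous_C _ _
            | apply IsWeightedHomogeneous.mul | apply IsWeightedHomogeneous.pow
            | apply IsWeightedHomogeneous.neg
        · simp only [two_nsmul] <;> abel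
  fin_cases i
  · exact key.1
  · exact (key.2.1.neg.sub (key.1.C_mul _)).sub (key.2.2.C_mul _)
  · exact key.2.2

end hom

theorem hom_cubic (W : WeierstrassCurve F) : W.toProjective.polynomial.IsHomogeneous 3 := by
  rw [Projective.polynomial, IsHomogeneous]
  repeat' with_reducible_and_instances first
    | apply IsWeightedHomogeneous.sub | apply IsWeightedHomogeneous.add
  all_goals
    apply wh_eq
    · repeat' with_reducible_and_instances first
        | exact isWeightedHomogeneous_X _ _ _ | exact isWeightedHomogeneous_C _ _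
        | apply IsWeightedHomogeneous.mul | apply IsWeightedHomogeneous.pow
    · simp

theorem prime_cubic (W : WeierstrassCurve F) : Prime W.toProjective.polynomial := by
  have e : finSuccEquiv F 2 (-W.toProjective.polynomial) = Cubic.toPoly ⟨1, C W.a₂ * X 1,
      C W.a₄ * X 1 ^ 2 - C W.a₁ * X 0 * X 1,
      C W.a₆ * X 1 ^ 3 - X 0 ^ 2 * X 1 - C W.a₃ * X 0 * X 1 ^ 2⟩ := by
    have h1 : finSuccEquiv F 2 (X 1) = Polynomial.C (X 0) := finSuccEquiv_X_succ (j := 0)
    have h2 : finSuccEquiv F 2 (X 2) = Polynomial.C (X 1) := finSuccEquiv_X_succ (j := 1)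
    have h3 : ∀ a : F, finSuccEquiv F 2 (C a) = Polynomial.C (C a) := fun a =>
      (finSuccEquiv F 2).commutes a
    simp only [Projective.polynomial, map_neg, map_sub, map_add, map_mul, map_pow, h1, h2, h3,
      finSuccEquiv_X_zero, Cubic.toPoly, map_one]
    ring
  rw [← neg_neg W.toProjective.polynomial]
  refine Prime.neg ?_
  rw [← MulEquiv.prime_iff (finSuccEquiv F 2), e, ← irreducible_iff_prime,
    (Cubic.monic_of_a_eq_one' ..).irreducible_iff_roots_eq_zero_of_degree_le_three
      (by rw [Cubic.natDegree_of_a_ne_zero' one_ne_zero]; omega)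
      (by rw [Cubic.natDegree_of_a_ne_zero' one_ne_zero]), Multiset.eq_zero_iff_forall_notMem]
  intro g hg
  have h := congrArg (aeval (R := F) ![Polynomial.X, (1 : Polynomial F)])
    (Polynomial.mem_roots'.1 hg).2.eq_zero
  simp only [Cubic.toPoly, Polynomial.eval_add, Polynomial.eval_mul, Polynomial.eval_C,
    Polynomial.eval_pow, Polynomial.eval_X, map_add, map_mul, map_sub, map_pow, aeval_X, aeval_C,
    map_one, map_zero, Matrix.cons_val_zero, Matrix.cons_val_one, Polynomial.algebraMap_eq,
    Polynomial.eval_sub, Polynomial.eval_one] at h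
  generalize aeval (R := F) ![Polynomial.X, (1 : Polynomial F)] g = G at h
  rcases Nat.eq_zero_or_pos G.natDegree with hd | hd
  · rw [Polynomial.eq_C_of_natDegree_eq_zero hd] at h
    have h1 : (Polynomial.X : Polynomial F) ^ 2 = Polynomial.C (G.coeff 0 ^ 3 + W.a₂ * G.coeff 0 ^ 2
      + W.a₄ * G.coeff 0 + W.a₆) - Polynomial.C (W.a₁ * G.coeff 0 + W.a₃) * Polynomial.X := by
      simp only [map_add, map_mul, map_pow]
      linear_combination -h
    have h2 := congrArg (Polynomial.coeff · 2) h1
    simp [-map_add, -map_mul, -map_pow] at h2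
  · have h1 : G ^ 3 = Polynomial.X ^ 2 + Polynomial.C W.a₁ * G * Polynomial.X +
        Polynomial.C W.a₃ * Polynomial.X - Polynomial.C W.a₂ * G ^ 2 - Polynomial.C W.a₄ * G -
        Polynomial.C W.a₆ := by linear_combination h
    have h2 : (G ^ 3).natDegree ≤ 2 * G.natDegree := by
      rw [h1]
      compute_degree
      simp only [sup_le_iff]
      omega
    rw [Polynomial.natDegree_pow] at h2
    omega

attribute [local instance] MvPolynomial.gradedAlgebra in
theorem hom_span (W : WeierstrassCurve F) : ∀ P ∈ Ideal.span {W.toProjective.polynomial}, ∀ d,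
    homogeneousComponent d P ∈ Ideal.span {W.toProjective.polynomial} := fun _ hP d =>
  homogeneousComponent_mem_of_mem (Ideal.homogeneous_span _ _ fun _ h => ⟨3, h ▸ hom_cubic W⟩) hP d

variable {W : WeierstrassCurve F}

/-- Homogeneous coordinates of a point. -/
def co : W.toAffine.Point → Fin 3 → F
  | .zero => ![0, 1, 0]
  | .some x y _ => ![x, y, 1]

theorem co_ns : ∀ p : W.toAffine.Point, W.toProjective.Nonsingular (co p)
  | .zero => nonsingular_zero
  | .some _ _ h => (nonsingular_some ..).2 h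

theorem co_aff : ∀ p : W.toAffine.Point, Point.toAffine W.toProjective (co p) = p
  | .zero => Point.toAffine_zero
  | .some _ _ h => Point.toAffine_some ((nonsingular_some ..).2 h)

theorem co_ne (p : W.toAffine.Point) : co p ≠ 0 := by
  rcases p with _ | _
  · exact fun h => one_ne_zero (congrFun h 1)
  · exact fun h => one_ne_zero (congrFun h 2)

theorem eq_co {P : Fin 3 → F} (hP : W.toProjective.Nonsingular P) :
    ∃ c : F, c ≠ 0 ∧ P = c • co (Point.toAffine W.toProjective P) := by
  by_cases h : P 2 = 0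
  · obtain ⟨u, hu⟩ := equiv_zero_of_Z_eq_zero hP h
    rw [Point.toAffine_of_Z_eq_zero h]
    exact ⟨u, u.ne_zero, hu.symm⟩
  · obtain ⟨u, hu⟩ := equiv_some_of_Z_ne_zero h
    rw [Point.toAffine_of_Z_ne_zero hP h]
    exact ⟨u, u.ne_zero, hu.symm⟩

variable [DecidableEq F]

theorem law (p q : W.toAffine.Point) (u v : F) : ∃ c : F,
    W.toProjective.addXYZ (u • co p) (v • co q) = c • co (p + q) ∧
      (p ≠ q → u ≠ 0 → v ≠ 0 → c ≠ 0) := by
  rw [addXYZ_smul]
  rcases eq_or_ne p q with rfl | h
  · refine ⟨0, ?_, fun h => (h rfl).elim⟩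
    rw [addXYZ_self, zero_smul]
    ext i
    fin_cases i <;> simp
  have h1 : ¬ co p ≈ co q := fun e => h (by rw [← co_aff p, Point.toAffine_of_equiv e, co_aff])
  obtain ⟨c, h2, h3⟩ := eq_co (nonsingular_add (co_ns p) (co_ns q))
  rw [Point.toAffine_add (co_ns p) (co_ns q), co_aff, co_aff, add_of_not_equiv h1] at h3
  exact ⟨(u * v) ^ 2 * c, by rw [h3, smul_smul],
    fun _ hu hv => mul_ne_zero (pow_ne_zero _ (mul_ne_zero hu hv)) h2⟩

theorem two_finite [CharZero F] (c : W.toAffine.Point) : {r : W.toAffine.Point | r + r = c}.Finite := by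
  have h0 : {r : W.toAffine.Point | r + r = 0}.Finite := by
    have h4 : W.twoTorsionPolynomial.toPoly ≠ 0 := Cubic.ne_zero_of_a_ne_zero (by
      simp [twoTorsionPolynomial])
    refine Set.Finite.of_finite_image (f := co) (((W.twoTorsionPolynomial.toPoly.roots.finite_toSet).image
      fun x => ![x, -(W.a₁ * x + W.a₃) / 2, 1]).insert ![0, 1, 0] |>.subset ?_)
      fun p _ q _ h => by rw [← co_aff p, h, co_aff]
    rintro _ ⟨_ | ⟨x, y, h⟩, hr, rfl⟩
    · exact Or.inl rfl
    have h1 : y = W.toAffine.negY x y := by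
      have := add_eq_zero_iff_eq_neg.1 hr
      rw [Affine.Point.neg_some, Affine.Point.some.injEq] at this
      exact this.2
    have h2 := (Affine.equation_iff ..).1 h.1
    rw [Affine.negY] at h1
    have h3 : y = -(W.a₁ * x + W.a₃) / 2 := by linear_combination h1 / 2
    refine Or.inr ⟨x, (Polynomial.mem_roots h4).2 ?_, congrArg (fun t => ![x, t, 1]) h3.symm⟩
    simp only [twoTorsionPolynomial, Cubic.toPoly, Polynomial.IsRoot, Polynomial.eval_add,
      Polynomial.eval_mul, Polynomial.eval_C, Polynomial.eval_pow, Polynomial.eval_X, b₂, b₄, b₆]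
    linear_combination (2 * y + W.a₁ * x + W.a₃) * h1 - 4 * h2
  rcases {r : W.toAffine.Point | r + r = c}.eq_empty_or_nonempty with h | ⟨s, hs⟩
  · rw [h]
    exact Set.finite_empty
  refine (h0.image (· + s)).subset fun r hr => ⟨r - s, ?_, sub_add_cancel _ _⟩
  have h1 : r + r = c := hr
  have h2 : s + s = c := hs
  change r - s + (r - s) = 0
  rw [← add_sub_add_comm, h1, h2, sub_self]

omit [DecidableEq F] in
theorem abelian_cubic [CharZero F] [IsAlgClosed F]
    (h : ∀ x y, W.toAffine.Equation x y → W.toAffine.Nonsingular x y) :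
    Ds.Abelian (Ideal.span {W.toProjective.polynomial}) := by
  classical
  have hinf : Infinite W.toAffine.Point := by
    have : ∀ x : F, ∃ y, W.toAffine.Equation x y := fun x => by
      obtain ⟨z, hz⟩ := IsAlgClosed.exists_pow_nat_eq
        (x ^ 3 + W.a₂ * x ^ 2 + W.a₄ * x + W.a₆ + ((W.a₁ * x + W.a₃) / 2) ^ 2) two_pos
      exact ⟨z - (W.a₁ * x + W.a₃) / 2, (Affine.equation_iff ..).2 (by linear_combination hz)⟩
    choose y hy using this
    exact Infinite.of_injective (fun x => Affine.Point.some x (y x) (h _ _ (hy x)))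
      fun _ _ e => (Affine.Point.some.inj e).1
  refine ⟨W.toAffine.Point, inferInstance, co, ⟨(Ideal.span_singleton_prime
    (prime_cubic W).ne_zero).2 (prime_cubic W), hom_span W, co_ne, fun p P hP => ?_,
    fun v hv hz => ?_⟩, fun p₀ q₀ => ?_⟩
  · obtain ⟨Q, rfl⟩ := Ideal.mem_span_singleton.1 hP
    rw [map_mul, (co_ns p).1, zero_mul]
  · have h1 : W.toProjective.Equation v := hz _ (Ideal.mem_span_singleton_self _)
    have h2 : W.toProjective.Nonsingular v := by
      by_cases h0 : v 2 = 0
      · have h3 := X_eq_zero_of_Z_eq_zero h1 h0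
        refine (nonsingular_of_Z_eq_zero h0).2 ⟨h1, Or.inr ?_⟩
        rw [h3]
        simpa using fun h4 => hv (funext fun i => by fin_cases i <;> assumption)
      · exact (nonsingular_of_Z_ne_zero h0).2 (h _ _ ((equation_of_Z_ne_zero h0).1 h1))
    obtain ⟨c, -, hc⟩ := eq_co h2
    refine ⟨_, ⟨c, hc⟩, ?_⟩
    rintro p ⟨c, rfl⟩
    rw [Point.toAffine_smul _ (Ne.isUnit (left_ne_zero_of_smul hv)), co_aff]
  obtain ⟨r, hr⟩ := (((two_finite (-q₀ - p₀)).insert p₀).insert q₀).exists_notMem
  simp only [Set.mem_insert_iff, Set.mem_ofPred_eq, not_or] at hr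
  have key : ∀ p q : W.toAffine.Point, ∃ c : F, (∀ a, eval (Sum.elim (co p) (co q))
      ((W.map C).toProjective.addXYZ
        ((W.map C).toProjective.addXYZ (fun i => X (.inl i)) fun i => C (co r i))
        ((W.map C).toProjective.addXYZ ((W.map C).toProjective.neg fun i => X (.inr i))
          fun i => C (co (-r) i)) a) = c * co (p - q) a) ∧
      (p ≠ r → -q ≠ -r → p + r ≠ -q + -r → c ≠ 0) := fun p q => by
    obtain ⟨c, h1, h2⟩ := eq_co (nonsingular_neg (co_ns q))
    rw [Point.toAffine_neg (co_ns q), co_aff] at h2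
    obtain ⟨c₁, h3, h4⟩ := law p r 1 1
    obtain ⟨c₂, h5, h6⟩ := law (-q) (-r) c 1
    obtain ⟨c₃, h7, h8⟩ := law (p + r) (-q + -r) c₁ c₂
    refine ⟨c₃, fun a => ?_, fun k1 k2 k3 =>
      h8 k3 (h4 k1 one_ne_zero one_ne_zero) (h6 k2 h1 one_ne_zero)⟩
    have e : (W.map C).toProjective.map (eval (Sum.elim (co p) (co q))) = W.toProjective := by
      refine (WeierstrassCurve.map_map ..).trans ?_
      convert W.map_id
      exact RingHom.ext fun _ => eval_C _
    rw [← h3, ← h5, ← h2, one_smul, one_smul, one_smul,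
      show p + r + (-q + -r) = p - q by abel] at h7
    refine (congrFun (map_addXYZ (eval (Sum.elim (co p) (co q))) _ _).symm a).trans ?_
    rw [← map_addXYZ, ← map_addXYZ, ← Projective.map_neg, e]
    simpa only [Function.comp_def, eval_X, eval_C, Sum.elim_inl, Sum.elim_inr, Pi.smul_apply,
      smul_eq_mul] using congrFun h7 a
  refine ⟨_, _, wh_add W (wh_add W (fun i => isWeightedHomogeneous_X F _ (Sum.inl i))
    fun i => isWeightedHomogeneous_C _ (co r i)) (wh_add W (wh_neg W
      fun i => isWeightedHomogeneous_X F _ (Sum.inr i)) fun i => isWeightedHomogeneous_C _ (co (-r) i)),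
    ?_, fun p q => (key p q).imp fun _ h => h.1⟩
  obtain ⟨c, h1, h2⟩ := key p₀ q₀
  obtain ⟨a, ha⟩ := Function.ne_iff.1 (co_ne (p₀ - q₀))
  refine ⟨a, (h1 a).trans_ne (mul_ne_zero (h2 (Ne.symm hr.2.1) (fun e => hr.1 (neg_injective e).symm)
    fun e => hr.2.2 ?_) ha)⟩
  rw [← sub_eq_zero] at e ⊢
  rw [← e]
  abel

end Pool.Agent.Lib.MP_651af7_nt.El
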