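import Mathlib

/-! The zeros of a function on a Weierstrass curve add up to zero. -/

namespace Pool.Agent.Lib.MP_651af7_nt.El

open Polynomial Finset WeierstrassCurve WeierstrassCurve.Affine CoordinateRing Module

theorem sum_zero {F : Type} [Field F] [DecidableEq F] {W : Affine F} {ι : Type} [Fintype ι]
    {x y : ι → F} (h : ∀ i, W.Nonsingular (x i) (y i)) (hx : Function.Injective x) {a b : F[X]}
    (h0 : a ≠ 0 ∨ b ≠ 0) (hv : ∀ i, a.eval (x i) + b.eval (x i) * y i = 0)
    (hd : (a ^ 2 - a * b * (C W.a₁ * X + C W.a₃) -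
      b ^ 2 * (X ^ 3 + C W.a₂ * X ^ 2 + C W.a₄ * X + C W.a₆)).natDegree ≤ Fintype.card ι) :
    ∑ i, Point.some (x i) (y i) (h i) = 0 := by
  obtain ⟨g, hg⟩ : ∃ g : W.CoordinateRing, g = a • 1 + b • mk W X := ⟨_, rfl⟩
  have g0 : g ≠ 0 := fun e => by
    have := smul_basis_eq_zero (hg ▸ e)
    tauto
  have k1 : ∀ i, Ideal.span {g} ≤ XYIdeal W (x i) (C (y i)) := fun i => by
    obtain ⟨q, hq⟩ := dvd_iff_isRoot.2 (show (a + b * C (y i)).IsRoot (x i) by simpa using hv i)
    refine (Ideal.span_singleton_le_iff_mem _).2 (Ideal.mem_span_pair.2 ⟨mk W (C q), mk W (C b), ?_⟩)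
    rw [hg, XClass, YClass, smul, smul, mul_one, ← map_mul, ← map_mul, ← map_mul, ← map_mul,
      mul_comm q, ← hq, ← map_add, ← map_add]
    congr 1
    simp only [map_add, map_mul]
    ring
  have k2 : Pairwise (Function.onFun IsCoprime fun i => XYIdeal W (x i) (C (y i))) := by
    intro i j hij
    refine Ideal.isCoprime_iff_sup_eq.2 (Ideal.eq_top_of_isUnit_mem _ (sub_mem
      (Ideal.mem_sup_left (Ideal.subset_span (Or.inl rfl)))
      (Ideal.mem_sup_right (Ideal.subset_span (Or.inl rfl)))) ?_)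
    rw [XClass, XClass, ← map_sub, ← map_sub, sub_sub_sub_cancel_left, ← map_sub]
    exact (((sub_ne_zero.2 (hx.ne hij.symm)).isUnit.map C).map C).map _
  have k3 : FiniteDimensional F (W.CoordinateRing ⧸ Ideal.span {g}) :=
    (Ideal.quotientEquivDirectSum F (CoordinateRing.basis W)
      (Ideal.span_singleton_eq_bot.not.2 g0)).symm.finiteDimensional
  let φ : (W.CoordinateRing ⧸ Ideal.span {g}) →ₗ[F] ι → F := LinearMap.pi fun i =>
    (quotientXYIdealEquiv (h i).1).toLinearMap ∘ₗ (Ideal.Quotient.factorₐ F (k1 i)).toLinearMap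
  have k4 : Function.Surjective φ := fun z => by
    obtain ⟨s, hs⟩ := Ideal.pi_quotient_surjective k2 fun i =>
      (quotientXYIdealEquiv (h i).1).symm (z i)
    exact ⟨Ideal.Quotient.mk _ s, funext fun i => (AlgEquiv.eq_symm_apply _).1 (hs i)⟩
  have k5 : Function.Injective φ := by
    refine (LinearMap.injective_iff_surjective_of_finrank_eq_finrank (le_antisymm ?_
      (LinearMap.finrank_le_finrank_of_surjective k4))).2 k4
    rwa [finrank_quotient_span_eq_natDegree_norm (CoordinateRing.basis W) g0, hg, norm_smul_basis,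
      finrank_fintype_fun_eq_card]
  have k6 : ∏ i, XYIdeal W (x i) (C (y i)) = Ideal.span {g} := by
    rw [Ideal.prod_eq_iInf_of_pairwise_isCoprime fun i _ j _ e => k2 e]
    refine le_antisymm (fun s hs => Ideal.Quotient.eq_zero_iff_mem.1 (k5 ?_))
      (le_iInf₂ fun i _ => k1 i)
    rw [map_zero]
    ext i
    exact (EmbeddingLike.map_eq_zero_iff (f := quotientXYIdealEquiv (h i).1)).2
      (Ideal.Quotient.eq_zero_iff_mem.2 (iInf₂_le (f := fun i (_ : i ∈ univ) =>
        XYIdeal W (x i) (C (y i))) i (mem_univ i) hs))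
  rw [← Point.toClass_eq_zero, map_sum]
  change ∏ i, ClassGroup.mk W.FunctionField (XYIdeal' (W := W) (h i)) = 1
  rw [← map_prod]
  refine (ClassGroup.mk_eq_one_of_coe_ideal ?_).2 ⟨g, g0, k6⟩
  rw [Units.coe_prod]
  exact (map_prod (FractionalIdeal.coeIdealHom _ _) _ _).symm

end Pool.Agent.Lib.MP_651af7_nt.El
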