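import Pool.Agent.Lib.MP_651af7_nt.El.Fn
import Pool.Agent.Lib.MP_651af7_nt.El.Grp

/-! The function through `r` points of the curve and its last zero. -/

namespace Pool.Agent.Lib.MP_651af7_nt.El

open Polynomial Finset Matrix

section ring

variable {R R' : Type} [CommRing R] [CommRing R'] {n r : ℕ}

/-- The even part of the function with coefficients `τ`. -/
noncomputable def ga (τ : Fin n → R) : R[X] := ∑ i, C (τ i) * eA (od i)

/-- The odd part of the function with coefficients `τ`. -/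
noncomputable def gb (τ : Fin n → R) : R[X] := ∑ i, C (τ i) * eB (od i)

theorem nm_eq (f : R[X]) (τ : Fin n → R) : nm f τ = ga τ * ga τ - gb τ * f * gb τ := by
  simp only [ga, gb, nm, nu, Fintype.sum_prod_type, sum_mul, mul_sum, ← sum_sub_distrib, C_mul]
  exact sum_congr rfl fun _ _ => sum_congr rfl fun _ _ => by ring

theorem vl_eq (τ : Fin n → R) (x y : R) :
    ∑ i, τ i * ph (od i) x y = (ga τ).eval x + (gb τ).eval x * y := by
  simp only [ga, gb, ph_eq, eval_finsetSum, eval_mul, eval_C, sum_mul, ← sum_add_distrib]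
  exact sum_congr rfl fun _ _ => by ring

theorem nm_smul (f : R[X]) (c : R) (τ : Fin n → R) : nm f (c • τ) = C (c ^ 2) * nm f τ := by
  simp only [nm, mul_sum, Pi.smul_apply, smul_eq_mul, C_mul, sq]
  exact sum_congr rfl fun _ _ => by ring

/-- The matrix of the values of the basic functions, under a first row `u`. -/
def mx (u : Fin (r + 1) → R) (p q : Fin r → R) : Matrix (Fin (r + 1)) (Fin (r + 1)) R :=
  of (Fin.cons u fun i j => ph (od j) (p i) (q i))

/-- The coefficients of the function through the points. -/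
noncomputable def dl (p q : Fin r → R) (j : Fin (r + 1)) : R := (mx (Pi.single j 1) p q).det

theorem det_mx (u : Fin (r + 1) → R) (p q : Fin r → R) :
    (mx u p q).det = ∑ j, u j * dl p q j := by
  simp [dl, det_succ_row_zero, mx, Pi.single_apply, mul_assoc, mul_left_comm, submatrix]

theorem map_dl (φ : R →+* R') (p q : Fin r → R) (j : Fin (r + 1)) :
    φ (dl p q j) = dl (fun i => φ (p i)) (fun i => φ (q i)) j := by
  rw [dl, dl, RingHom.map_det]
  congr 1
  ext i l
  refine Fin.cases ?_ (fun i => ?_) i <;> simp [mx, map_ph, Pi.single_apply]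

/-- The common denominator. -/
noncomputable def dn (p q : Fin r → R) : R :=
  (-1) ^ (r + 1) * dl p q (Fin.last r) ^ 2 * ∏ i, (0 - p i)

/-- The numerators. -/
noncomputable def nr (f : R[X]) (c : R) (p q : Fin r → R) : Option (Fin r) → R
  | none => -(nm f (dl p q)).eval 0
  | some i => c * dl p q i.succ * ((-1) ^ (r + 1) * dl p q (Fin.last r) * ∏ i, (0 - p i))

theorem map_dn (φ : R →+* R') (p q : Fin r → R) :
    φ (dn p q) = dn (fun i => φ (p i)) fun i => φ (q i) := by
  simp [dn, map_dl]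

theorem map_nr (φ : R →+* R') (f : R[X]) (c : R) (p q : Fin r → R) (o : Option (Fin r)) :
    φ (nr f c p q o) = nr (f.map φ) (φ c) (fun i => φ (p i)) (fun i => φ (q i)) o := by
  rcases o with _ | i
  · simp only [nr, map_neg, ← eval_map_apply, map_nm, map_dl, map_zero]
  · simp [nr, map_dl]

end ring

theorem clear {k σ A : Type} [Field k] [CommRing A] [Algebra k A] (Θ : MvPolynomial σ k)
    (a : σ → A) (d : A) : ∃ (N : ℕ) (P : A), ∀ (F : Type) [Field F] [Algebra k F] (φ : A →ₐ[k] F),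
      φ d ≠ 0 → φ P = φ d ^ N * MvPolynomial.aeval (fun o => φ (a o) / φ d) Θ := by
  induction Θ using MvPolynomial.induction_on with
  | C c => exact ⟨0, algebraMap k A c, fun F _ _ φ _ => by simp⟩
  | add p q hp hq =>
    obtain ⟨N, P, hp⟩ := hp
    obtain ⟨M, Q, hq⟩ := hq
    refine ⟨N + M, P * d ^ M + Q * d ^ N, fun F _ _ φ h => ?_⟩
    simp only [map_add, map_mul, map_pow, hp F φ h, hq F φ h]
    ring
  | mul_X p o hp =>
    obtain ⟨N, P, hp⟩ := hp
    refine ⟨N + 1, P * a o, fun F _ _ φ h => ?_⟩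
    simp only [map_mul, hp F φ h, MvPolynomial.aeval_X, pow_succ]
    field_simp

variable {F : Type} [Field F] {f : F[X]} {r : ℕ}

theorem dl_ker {p q : Fin r → F} {τ : Fin (r + 1) → F}
    (h : ∀ i, ∑ j, τ j * ph (od j) (p i) (q i) = 0) (l : Fin (r + 1)) :
    τ l • dl p q = dl p q l • τ := by
  ext j
  rcases eq_or_ne τ 0 with rfl | h0
  · simp
  have := exists_mulVec_eq_zero_iff.1 ⟨τ, h0, show mx (τ l • Pi.single j 1 - τ j • Pi.single l 1)
    p q *ᵥ τ = 0 from funext fun i => Fin.cases (by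
      simp [mx, mulVec, dotProduct, Pi.single_apply, mul_sub, mul_comm])
      (fun i => by simpa [mx, mulVec, dotProduct, mul_comm] using h i) i⟩
  rw [det_mx] at this
  simp [sub_mul, Pi.single_apply] at this
  simp
  linear_combination this

theorem nm_prod (hf : f.Monic) (h3 : f.natDegree = 3) (hr : 1 ≤ r) {P Q : Option (Fin r) → F}
    (hP : Function.Injective P) (hE : ∀ o, Q o ^ 2 = f.eval (P o)) {τ : Fin (r + 1) → F}
    (h : ∀ o, ∑ j, τ j * ph (od j) (P o) (Q o) = 0) :
    nm f τ = C ((-1) ^ (r + 1) * τ (Fin.last r) ^ 2) * ∏ o, (X - C (P o)) := by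
  have k4 := monic_prod_X_sub_C P univ
  have k5 : (∏ o, (X - C (P o))).natDegree = r + 1 := by
    rw [natDegree_finsetProd_X_sub_C_eq_card]
    simp
  obtain ⟨k6, k7⟩ := nm_top hf h3 (τ := τ) (i := Fin.last r) fun j hj => (hj.not_ge j.le_last).elim
  rw [show od (Fin.last r) = r + 1 by simp [od]; omega] at k6 k7
  have k8 := eq_leadingCoeff_mul_of_monic_of_dvd_of_natDegree_le k4
    (Fintype.prod_dvd_of_coprime (pairwise_coprime_X_sub_C hP) fun o =>
      dvd_iff_isRoot.2 (by rw [IsRoot, eval_nm _ (hE o), h, zero_mul])) (k6.trans k5.ge)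
  rw [k8, coeff_C_mul, (congrArg _ k5.symm).trans k4.coeff_natDegree, mul_one] at k7
  rw [← k7]
  exact k8

theorem nr_eq (hf : f.Monic) (h3 : f.natDegree = 3) (hr : 1 ≤ r) {P Q : Option (Fin r) → F}
    (hP : Function.Injective P) (hE : ∀ o, Q o ^ 2 = f.eval (P o)) {τ : Fin (r + 1) → F}
    (h : ∀ o, ∑ j, τ j * ph (od j) (P o) (Q o) = 0) (h0 : τ (Fin.last r) ≠ 0)
    (hd : dn (fun i => P (some i)) (fun i => Q (some i)) ≠ 0) (o : Option (Fin r)) :
    nr f (τ (Fin.last r)) (fun i => P (some i)) (fun i => Q (some i)) o /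
      dn (fun i => P (some i)) (fun i => Q (some i)) = o.elim (P none) fun i => τ i.succ := by
  have k := dl_ker (fun i => h (some i)) (Fin.last r)
  rw [div_eq_iff hd]
  refine mul_left_cancel₀ (pow_ne_zero 2 h0) ?_
  rcases o with _ | i
  · have := congrArg (fun t => (nm f t).eval 0) k
    simp only [nm_smul, nm_prod hf h3 hr hP hE h, eval_mul, eval_C, eval_prod, eval_sub, eval_X,
      Fintype.prod_option] at this
    simp only [nr, dn, Option.elim]
    linear_combination -this
  · have := congrFun k i.succ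
    simp only [Pi.smul_apply, smul_eq_mul] at this
    simp only [nr, dn, Option.elim]
    linear_combination τ (Fin.last r) ^ 2 * ((-1) ^ (r + 1) *
      dl (fun i => P (some i)) (fun i => Q (some i)) (Fin.last r) * ∏ i, (0 - P (some i))) * this

theorem ex_sep [IsAlgClosed F] [CharZero F] (hf : f.Monic) (h3 : f.natDegree = 3) (a : F[X])
    {b θ : F[X]} (hb : b ≠ 0) (hθ : θ ≠ 0) : ∃ x y c : F, θ.eval x ≠ 0 ∧ y ^ 2 = f.eval x ∧
      c = a.eval x + b.eval x * y ∧ ((a - C c) * (a - C c) - b * f * b).Separable ∧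
      ((a - C c) * (a - C c) - b * f * b).eval 0 ≠ 0 := by
  have h0 : ∀ c, (a - C c) * (a - C c) - b * f * b ≠ 0 := fun c => (nm_deg hf h3 (Or.inr hb)).1
  have h1 : derivative (b * f * b) ≠ 0 := fun e => by
    have := derivative_eq_zero.1 e
    rw [natDegree_mul (mul_ne_zero hb hf.ne_zero) hb, natDegree_mul hb hf.ne_zero] at this
    omega
  have h2 := mul_ne_zero X_ne_zero (nm_deg hf h3 (b := 2 * b * derivative a) (Or.inl h1)).1
  have h4 := (finite_setOfPred_isRoot h2).biUnion (t := fun z => {c | ((a - C c) * (a - C c) -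
    b * f * b).IsRoot z}) fun z _ => (finite_setOfPred_isRoot (p := (X - C (a.eval z)) ^ 2 -
      C ((b * f * b).eval z)) (Monic.ne_zero (by monicity!))).subset
      fun c hc => by
        simp only [Set.mem_ofPred_eq, IsRoot, eval_sub, eval_mul, eval_C, eval_pow, eval_X] at hc ⊢
        linear_combination hc
  obtain ⟨x, hx⟩ := ((finite_setOfPred_isRoot hθ).union
    (h4.biUnion fun c _ => finite_setOfPred_isRoot (h0 c))).exists_notMem
  obtain ⟨y, hy⟩ := IsAlgClosed.exists_pow_nat_eq (f.eval x) two_pos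
  simp only [Set.mem_union, Set.mem_iUnion, Set.mem_ofPred_eq, not_or, not_exists] at hx
  have h5 := fun z hz hc => hx.2 (a.eval x + b.eval x * y) ⟨z, hz, hc⟩ (by
    simp only [IsRoot, eval_sub, eval_mul, eval_C, ← hy]
    ring)
  refine ⟨x, y, _, hx.1, hy, rfl, (isCoprime_iff_aeval_ne_zero_of_isAlgClosed F F _ _).2 fun z => ?_,
    h5 0 (by simp)⟩
  by_contra! e
  refine h5 z ?_ (by simpa using e.1)
  obtain ⟨e1, e2⟩ := e
  simp only [coe_aeval_eq_eval, derivative_sub, derivative_mul (f := a - _), derivative_C, sub_zero,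
    eval_sub, eval_add, eval_mul, eval_C, IsRoot, eval_X, eval_ofNat] at e1 e2 ⊢
  generalize eval z a - (eval x a + eval x b * y) = s at *
  linear_combination z * (4 * eval z (derivative a) ^ 2 * e1 -
    (eval z (derivative (b * f * b)) + 2 * s * eval z (derivative a)) * e2)

theorem ex_pts [IsAlgClosed F] {N : F[X]} (hs : N.Separable) (hd : N.natDegree = r + 1) {x : F}
    (hx : N.IsRoot x) : ∃ P : Option (Fin r) → F, Function.Injective P ∧ P none = x ∧
      ∀ o, N.IsRoot (P o) := by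
  classical
  have h0 := hs.ne_zero
  have h1 : x ∈ N.roots.toFinset := by simpa [h0] using hx
  have h2 : Fintype.card (N.roots.toFinset.erase x) = r := by
    rw [Fintype.card_coe, card_erase_of_mem h1, Multiset.toFinset_card_of_nodup (nodup_roots hs),
      IsAlgClosed.card_roots_eq_natDegree, hd, Nat.add_sub_cancel]
  let e := (Fintype.equivFinOfCardEq h2).symm
  refine ⟨fun o => o.elim x fun i => e i, ?_, rfl, ?_⟩
  · rintro (_ | i) (_ | j) h
    · rfl
    · exact (ne_of_mem_erase (e j).2 h.symm).elim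
    · exact (ne_of_mem_erase (e i).2 h).elim
    · exact congrArg some (e.injective (Subtype.ext h))
  · rintro (_ | i)
    exacts [hx, isRoot_of_mem_roots (Multiset.mem_toFinset.1 (mem_of_mem_erase (e i).2))]

theorem ex_good [IsAlgClosed F] [CharZero F] (hf : f.Monic) (h3 : f.natDegree = 3) {θ : F[X]}
    (hθ : θ ≠ 0) {t : Fin (r + 2) → F} (h1 : t 1 ≠ 0) (hl : t (Fin.last _) ≠ 0) :
    ∃ (P Q : Option (Fin (r + 2)) → F) (τ : Fin (r + 2 + 1) → F), Function.Injective P ∧
      (∀ o, Q o ^ 2 = f.eval (P o)) ∧ (∀ o, ∑ j, τ j * ph (od j) (P o) (Q o) = 0) ∧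
      (∀ i, τ i.succ = t i) ∧ θ.eval (P none) ≠ 0 ∧ ∀ o, P o ≠ 0 := by
  have hb : gb (Fin.cons 0 t : Fin (r + 2 + 1) → F) ≠ 0 := fun e => h1 (by
    have := congrArg (coeff · 0) e
    simp only [gb, finsetSum_coeff, coeff_C_mul, coeff_zero] at this
    rw [sum_eq_single (Fin.succ 1) (fun j _ hj => ?_) (by simp)] at this
    · rw [Fin.cons_succ, Fin.val_succ, Fin.val_one] at this
      simpa [eB, od] using this
    rw [eB]
    split_ifs with h
    · simp
    · rw [coeff_X_pow, if_neg, mul_zero]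
      simp only [od, ne_eq, Fin.ext_iff, Fin.val_succ, Fin.val_one] at h hj ⊢
      split_ifs at h ⊢ <;> omega)
  obtain ⟨x, y, c, k1, k2, k3, k4, k5⟩ := ex_sep hf h3 (ga (Fin.cons 0 t : Fin (r + 2 + 1) → F))
    hb hθ
  obtain ⟨τ, hτ⟩ : ∃ τ : Fin (r + 2 + 1) → F, τ = Fin.cons (-c) t := ⟨_, rfl⟩
  have e1 : ga (Fin.cons 0 t : Fin (r + 2 + 1) → F) - C c = ga τ := by
    rw [hτ, ga, ga, Fin.sum_univ_succ, Fin.sum_univ_succ (n := r + 2)]
    simp [eA, od]
    ring
  have e2 : gb (Fin.cons 0 t : Fin (r + 2 + 1) → F) = gb τ := by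
    rw [hτ, gb, gb, Fin.sum_univ_succ, Fin.sum_univ_succ (n := r + 2)]
    simp [eB, od]
  rw [e1, e2, ← nm_eq] at k4 k5
  have e3 : ∑ j, τ j * ph (od j) x y = 0 := by
    rw [vl_eq, ← e1, ← e2, eval_sub, eval_C]
    linear_combination -k3
  obtain ⟨k6, k7⟩ := nm_top hf h3 (τ := τ) (i := Fin.last _) fun j hj => (hj.not_ge j.le_last).elim
  obtain ⟨P, p1, rfl, p2⟩ := ex_pts (r := r + 2) (x := x) k4 (natDegree_eq_of_le_of_coeff_ne_zero k6
    (k7.trans_ne (by simpa [hτ, ← Fin.succ_last] using hl)))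
    (by rw [IsRoot, eval_nm _ k2, e3, zero_mul])
  have h : ∀ o, ∃ z, z ^ 2 = f.eval (P o) ∧ ∑ j, τ j * ph (od j) (P o) z = 0 := fun o => by
    obtain ⟨z, hz⟩ := IsAlgClosed.exists_pow_nat_eq (f.eval (P o)) two_pos
    rcases mul_eq_zero.1 ((eval_nm τ hz).symm.trans (p2 o)) with e | e
    exacts [⟨z, hz, e⟩, ⟨-z, (neg_sq z).trans hz, e⟩]
  choose Q q1 q2 using h
  exact ⟨P, Q, τ, p1, q1, q2, fun i => by simp [hτ], k1, fun o e => k5 (by simpa [e] using p2 o)⟩

theorem ex_last {k L : Type} [Field k] [Field L] [Algebra k L] [FiniteDimensional k L] {f : k[X]}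
    (hf : f.Monic) (h3 : f.natDegree = 3) (hr : 2 ≤ r) {x y : L} {τ : Fin (r + 1) → k}
    (hd : (minpoly k x).natDegree = r) (hy : y ^ 2 = aeval x f)
    (h1 : ∑ i, algebraMap k L (τ i) * ph (od i) x y = 0) (h0 : τ (Fin.last r) ≠ 0) :
    ∃ x' y' : k, y' ^ 2 = f.eval x' ∧ ∑ i, τ i * ph (od i) x' y' = 0 := by
  have hi : IsIntegral k x := .of_finite k x
  obtain ⟨M, hM⟩ : minpoly k x ∣ nm f τ := minpoly.dvd k x (by
    rw [← eval_map_algebraMap, map_nm, eval_nm _ (hy.trans (eval_map_algebraMap ..).symm), h1,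
      zero_mul])
  obtain ⟨k6, k7⟩ := nm_top hf h3 (τ := τ) (i := Fin.last r) fun j hj => (hj.not_ge j.le_last).elim
  replace k7 := k7.trans_ne (c := 0) (by simpa using h0)
  have k8 := natDegree_eq_of_le_of_coeff_ne_zero k6 k7
  have M0 : M ≠ 0 := by
    rintro rfl
    simp [hM] at k7
  rw [hM, natDegree_mul (minpoly.ne_zero hi) M0, hd, od, if_neg (by simp; omega), Fin.val_last,
    add_right_inj] at k8
  obtain ⟨x', hx'⟩ := exists_root_of_degree_eq_one ((degree_eq_iff_natDegree_eq M0).2 k8)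
  have e : (ga τ * ga τ - gb τ * f * gb τ).eval x' = 0 := by
    rw [← nm_eq, hM, eval_mul, hx', mul_zero]
  simp only [eval_sub, eval_mul] at e
  have hb : (gb τ).eval x' ≠ 0 := fun hb => by
    have ha : (ga τ).eval x' = 0 := by simpa [hb] using e
    have k3 : IsCoprime (X - C x') (minpoly k x) := ((minpoly.irreducible hi).coprime_iff_not_dvd.2
      fun h => by
        have := natDegree_le_of_dvd h (X_sub_C_ne_zero _)
        rw [natDegree_X_sub_C] at this
        omega).symm
    have k4 := natDegree_le_of_dvd ((k3.mul_left k3).dvd_of_dvd_mul_left (hM ▸ nm_eq f τ ▸ dvd_sub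
      (mul_dvd_mul (dvd_iff_isRoot.2 ha) (dvd_iff_isRoot.2 ha))
      (mul_dvd_mul ((dvd_iff_isRoot.2 hb).mul_right f) (dvd_iff_isRoot.2 hb)))) M0
    rw [← sq, natDegree_pow, natDegree_X_sub_C] at k4
    omega
  refine ⟨x', -(ga τ).eval x' / (gb τ).eval x', ?_, ?_⟩
  · field_simp
    linear_combination e
  · rw [vl_eq]
    field_simp
    ring

end Pool.Agent.Lib.MP_651af7_nt.El
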