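import Pool.Agent.Lib.MP_651af7_nt.El.Main
import Pool.Agent.Lib.MP_651af7_nt.El.Sym

/-! Points of degree `r` on an elliptic curve and their traces. -/

namespace Pool.Agent.Lib.MP_651af7_nt.El

open Finset Height NumberField Module Polynomial Real Matrix WeierstrassCurve Affine
open scoped Classical

section curve

variable {k : Type} [Field k] {W : WeierstrassCurve k} (h1 : W.a₁ = 0) (h3 : W.a₃ = 0) {f : k[X]}
  (hf : f = X ^ 3 + C W.a₂ * X ^ 2 + C W.a₄ * X + C W.a₆) {F : Type} [Field F] [Algebra k F]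
include h1 h3 hf

theorem ns_iff [CharZero F] (hs : f.Separable) (x y : F) :
    (W.toAffine⁄F).Nonsingular x y ↔ y ^ 2 = (f.map (algebraMap k F)).eval x := by
  have h2 := hs.eval₂_derivative_ne_zero (algebraMap k F) (x := x)
  rw [nonsingular_iff', equation_iff]
  simp [hf, h1, h3, eval₂_pow] at h2 ⊢
  intro h
  by_contra! h0
  rw [h0.2] at h
  exact h2 (by linear_combination -h) (by rw [map_ofNat]; linear_combination -h0.1)

theorem sum_nm {ι : Type} [Fintype ι] {P Q : ι → F} (h : ∀ o, (W.toAffine⁄F).Nonsingular (P o) (Q o))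
    (hP : Function.Injective P) {n : ℕ} {τ : Fin n → F} (h0 : τ ≠ 0)
    (hv : ∀ o, ∑ j, τ j * ph (od j) (P o) (Q o) = 0)
    (hd : (nm (f.map (algebraMap k F)) τ).natDegree ≤ Fintype.card ι) :
    ∑ o, Point.some (P o) (Q o) (h o) = 0 := by
  refine sum_zero h hP (a := ga τ) (b := gb τ) ?_ (fun o => vl_eq τ _ _ ▸ hv o) ?_
  · by_contra! e
    refine h0 (nm_zero (f := X ^ 3) (monic_X_pow 3) (natDegree_X_pow 3) fun l => ?_)
    simp [nm_eq, e]
  · refine le_of_eq_of_le (congrArg _ ?_) hd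
    simp [nm_eq, hf, h1, h3]
    ring

end curve

theorem canon₂ (k : Type) [Field k] [NumberField k] (Ω : Type) [Field Ω] [IsAlgClosed Ω]
    [Algebra k Ω] (W : WeierstrassCurve k) (h1 : W.a₁ = 0) (h3 : W.a₃ = 0) (G : k[X])
    (hs : (G * (X ^ 3 + C W.a₂ * X ^ 2 + C W.a₄ * X + C W.a₆)).Separable)
    (r : ℕ) (hr : 2 ≤ r) (ε : ℝ) (hε : 0 < ε) : ∃ Θ : MvPolynomial (Fin r ⊕ Fin r) k,
      (∃ p q : Fin r → Ω, (∀ i, (W.toAffine⁄Ω).Nonsingular (p i) (q i)) ∧
        MvPolynomial.aeval (Sum.elim p q) Θ ≠ 0) ∧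
      ∀ N : ℕ, N ≠ 0 → ∃ C : ℝ, ∀ (L : Type) [Field L] [NumberField L] [Algebra k L]
        (σ : Fin r ≃ (L →ₐ[k] Ω)) (x y : L) (h : (W.toAffine⁄L).Nonsingular x y)
        (T : Finset (FinitePlace L)), (∀ w, w ∈ T ↔ w N < 1) →
        MvPolynomial.aeval (Sum.elim (σ · x) (σ · y)) Θ ≠ 0 → aeval x G * y ≠ 0 →
        ∃ (x' y' : k) (h' : (W.toAffine⁄k).Nonsingular x' y') (τ : Fin (r + 1) → k),
          τ (Fin.last r) ≠ 0 ∧ ∑ j, algebraMap k L (τ j) * ph (od j) x y = 0 ∧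
          ∑ j, τ j * ph (od j) x' y' = 0 ∧
          Point.baseChange k Ω (-.some x' y' h') = ∑ i, Point.map (σ i) (.some x y h) ∧
          ∑ v : InfinitePlace L, v.mult *
            log (max 1 (v x) ^ (G.natDegree + 2) / v (aeval x G * y)) +
          ∑ v ∈ T, log (max 1 (v x) ^ (G.natDegree + 2) / v (aeval x G * y)) +
          (1 - ε) * logHeight₁ x' / 2 ≤ (r + ε) * logHeight₁ x / 2 + C := by
  have := charZero_of_injective_algebraMap (algebraMap k Ω).injective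
  obtain ⟨f, hf⟩ : ∃ f, f = X ^ 3 + C W.a₂ * X ^ 2 + C W.a₄ * X + C W.a₆ := ⟨_, rfl⟩
  have f1 : f.Monic := by rw [hf]; monicity!
  have f3 : f.natDegree = 3 := by rw [hf]; compute_degree!
  rw [← hf] at hs
  have f1' := f1.map (algebraMap k Ω)
  have f3' := (f1.natDegree_map (algebraMap k Ω)).trans f3
  have ns := ns_iff h1 h3 hf (F := Ω) hs.of_mul_right
  obtain ⟨Θ, h0, H⟩ := main k f G f1 f3 hs r hr ε hε
  obtain ⟨r, rfl⟩ := Nat.exists_eq_add_of_le' hr
  obtain ⟨z, hz⟩ : ∃ z, MvPolynomial.eval z (Θ * MvPolynomial.X (some 1) *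
      MvPolynomial.X (some (Fin.last _))) ≠ 0 := by
    by_contra! e
    simpa [h0] using MvPolynomial.funext (q := 0) e
  simp only [map_mul, MvPolynomial.eval_X, mul_ne_zero_iff] at hz
  obtain ⟨⟨z0, z1⟩, z2⟩ := hz
  let p₀ : Fin (r + 2) → MvPolynomial (Fin (r + 2) ⊕ Fin (r + 2)) k := fun i => .X (.inl i)
  let q₀ : Fin (r + 2) → MvPolynomial (Fin (r + 2) ⊕ Fin (r + 2)) k := fun i => .X (.inr i)
  obtain ⟨n, Θ', hΘ⟩ := clear Θ (nr (f.map MvPolynomial.C) (.C (z (some (Fin.last _)))) p₀ q₀)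
    (dn p₀ q₀)
  have key : ∀ (P Q : Option (Fin (r + 2)) → Ω) (τ : Fin (r + 2 + 1) → Ω), Function.Injective P →
      (∀ o, Q o ^ 2 = (f.map (algebraMap k Ω)).eval (P o)) →
      (∀ o, ∑ j, τ j * ph (od j) (P o) (Q o) = 0) →
      τ (Fin.last _) = algebraMap k Ω (z (some (Fin.last _))) →
      dn (fun i => P (some i)) (fun i => Q (some i)) ≠ 0 →
      (MvPolynomial.aeval (Sum.elim (fun i => P (some i)) fun i => Q (some i)) Θ' ≠ 0 ↔
        MvPolynomial.aeval (fun o : Option _ => o.elim (P none) fun i => τ i.succ) Θ ≠ 0) := by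
    intro P Q τ hP hE hv hl hd
    obtain ⟨φ, hφ⟩ : ∃ φ, φ = MvPolynomial.aeval (R := k)
      (Sum.elim (fun i => P (some i)) fun i => Q (some i)) := ⟨_, rfl⟩
    have e1 : φ (dn p₀ q₀) = dn (fun i => P (some i)) fun i => Q (some i) :=
      (map_dn φ.toRingHom _ _).trans (by simp [hφ, p₀, q₀])
    rw [← hφ, hΘ Ω φ (e1.trans_ne hd), mul_ne_zero_iff_left (pow_ne_zero _ (e1.trans_ne hd))]
    congr! 4 with o
    rw [← nr_eq f1' f3' (by omega) hP hE hv (hl.trans_ne (by simpa using z2)) hd, e1, hl]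
    refine congrArg (· / _) ((map_nr φ.toRingHom _ _ _ _ _).trans ?_)
    simp [hφ, p₀, q₀, Polynomial.map_map]
    congr 2
    ext
    simp
  have dif : ∀ p q : Fin (r + 2) → Ω, MvPolynomial.aeval (Sum.elim p q)
      (Θ' * dn p₀ q₀ * ∏ e ∈ univ.offDiag, (p₀ e.1 - p₀ e.2)) ≠ 0 ↔
      MvPolynomial.aeval (Sum.elim p q) Θ' ≠ 0 ∧ dn p q ≠ 0 ∧ Function.Injective p := fun p q => by
    have e1 : MvPolynomial.aeval (Sum.elim p q) (dn p₀ q₀) = dn p q :=
      (map_dn (MvPolynomial.aeval (R := k) (Sum.elim p q)).toRingHom _ _).trans (by simp [p₀, q₀])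
    rw [map_mul, map_mul, e1, mul_ne_zero_iff, mul_ne_zero_iff, and_assoc, map_prod,
      prod_ne_zero_iff]
    simp [p₀, sub_eq_zero, Function.Injective, not_imp_not]
  refine ⟨Θ' * dn p₀ q₀ * ∏ e ∈ univ.offDiag, (p₀ e.1 - p₀ e.2), ?_, fun N hN => ?_⟩
  · obtain ⟨θ, hθ⟩ : ∃ θ : Polynomial Ω, θ = MvPolynomial.aeval (fun o : Option _ => o.elim X fun i =>
      C (algebraMap k Ω (z (some i)))) Θ := ⟨_, rfl⟩
    have e : ∀ x, θ.eval x = MvPolynomial.aeval (fun o : Option _ => o.elim x fun i =>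
        algebraMap k Ω (z (some i))) Θ := fun x => by
      rw [hθ, ← coe_aeval_eq_eval, ← AlgHom.coe_restrictScalars' k, ← AlgHom.comp_apply,
        MvPolynomial.comp_aeval]
      congr 2
      ext (_ | _) <;> simp
    obtain ⟨P, Q, τ, k1, k2, k3, k4, k5, k6⟩ := ex_good f1' f3' (θ := θ) (fun e' => z0 (by
      have := e (algebraMap k Ω (z none))
      rw [e', eval_zero, show (fun o : Option _ => o.elim (algebraMap k Ω (z none)) fun i =>
        algebraMap k Ω (z (some i))) = algebraMap k Ω ∘ z by ext (_ | _) <;> rfl,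
        MvPolynomial.aeval_algebraMap_apply] at this
      simpa using this.symm)) (t := fun i => algebraMap k Ω (z (some i))) (by simpa using z1)
      (by simpa using z2)
    have k7 := Fin.succ_last _ ▸ k4 (Fin.last _)
    have k8 : dn (fun i => P (some i)) (fun i => Q (some i)) ≠ 0 := by
      refine mul_ne_zero (mul_ne_zero (by simp) (pow_ne_zero _ fun e => ?_))
        (by simp [prod_ne_zero_iff, k6])
      obtain ⟨τ', t0, t1⟩ := exists_mulVec_eq_zero_iff.2 e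
      have a1 := sum_nm h1 h3 hf (fun o => (ns _ _).2 (k2 o)) k1 (τ := τ)
        (fun e => z2 (by simpa [e] using k7.symm)) k3 ((nm_top f1' f3' (i := Fin.last _)
          fun j hj => (hj.not_ge j.le_last).elim).1.trans (by simp [od]))
      have a2 := sum_nm h1 h3 hf (fun i => (ns _ _).2 (k2 (some i)))
        (k1.comp (Option.some_injective _)) t0
        (fun i => by simpa [mx, mulVec, dotProduct, mul_comm] using congrFun t1 i.succ)
        ((nm_top f1' f3' (i := (Fin.last _).castSucc) fun j hj => by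
          obtain rfl : j = Fin.last _ := Fin.ext (by simp [Fin.lt_def] at hj ⊢; omega)
          simpa [mx, mulVec] using congrFun t1 0).1.trans (by simp [od]))
      rw [Fintype.sum_option, a2, add_zero] at a1
      exact Point.some_ne_zero _ a1
    refine ⟨_, _, fun i => (ns _ _).2 (k2 (some i)), (dif _ _).2 ⟨(key P Q τ k1 k2 k3 k7 k8).2 ?_,
      k8, k1.comp (Option.some_injective _)⟩⟩
    simpa only [e, k4] using k5
  obtain ⟨C₀, H⟩ := H N hN
  refine ⟨C₀, fun L _ _ _ σ x y h T hT hΘ hz => ?_⟩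
  obtain ⟨k1, k2, k3⟩ := (dif _ _).1 hΘ
  have := Module.Finite.of_restrictScalars_finite ℚ k L
  have hL : finrank k L = r + 2 := by
    rw [← AlgHom.card k L Ω, ← Fintype.card_congr σ, Fintype.card_fin]
  have hx : Algebra.adjoin k {x} = ⊤ := IntermediateField.adjoin_eq_top_iff.1
    ((Field.primitive_element_iff_algHom_eq_of_eval' k Ω (fun _ => IsAlgClosed.splits _) x).2
      ((Equiv.injective_comp σ _).1 k3))
  have hy := (ns_iff h1 h3 hf hs.of_mul_right x y).1 h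
  rw [eval_map_algebraMap] at hy
  have hc : ∀ {τ : Fin (r + 2 + 1) → k}, ∑ j, algebraMap k L (τ j) * ph (od j) x y = 0 →
      ∀ i, ∑ j, algebraMap k Ω (τ j) * ph (od j) (σ i x) (σ i y) = 0 := fun e i => by
    simpa [ph] using congrArg (σ i) e
  obtain ⟨τ, t0, t1⟩ : ∃ τ : Fin (r + 2 + 1) → k, ∑ j, algebraMap k L (τ j) * ph (od j) x y = 0 ∧
      τ (Fin.last _) = z (some (Fin.last _)) := by
    obtain ⟨τ, t0, j, t1⟩ := Fintype.not_linearIndependent_iff.1
      fun e : LinearIndependent k fun j : Fin (r + 2 + 1) => ph (od j) x y => by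
        simpa [hL] using e.fintype_card_le_finrank
    have t2 : τ (Fin.last _) ≠ 0 := fun e => by
      have := congrFun (dl_ker (hc (τ := τ) (by simpa [Algebra.smul_def] using t0)) (Fin.last _)) j
      simp [e, t1] at this
      simp [dn, this] at k2
    refine ⟨(z (some (Fin.last _)) / τ (Fin.last _)) • τ, ?_, div_mul_cancel₀ _ t2⟩
    simp only [Pi.smul_apply, smul_eq_mul, map_mul, mul_assoc, ← mul_sum, ← Algebra.smul_def (τ _),
      t0, mul_zero]
  obtain ⟨x', y', hy', t2⟩ := ex_last f1 f3 (by omega)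
    ((PowerBasis.ofAdjoinEqTop (.of_finite k x) hx).finrank.symm.trans hL) hy t0 (t1.trans_ne z2)
  let P : Option (Fin (r + 2)) → Ω := fun o => o.elim (algebraMap k Ω x') (σ · x)
  let Q : Option (Fin (r + 2)) → Ω := fun o => o.elim (algebraMap k Ω y') (σ · y)
  have p0 : ∀ i, σ i x ≠ algebraMap k Ω x' := fun i e => by
    obtain rfl : x = algebraMap k L x' := (σ i).injective (e.trans ((σ i).commutes _).symm)
    simpa using k3 (a₁ := 0) (a₂ := 1) (by simp)
  have p1 : Function.Injective P := by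
    rintro (_ | i) (_ | j) e
    exacts [rfl, (p0 j e.symm).elim, (p0 i e).elim, congrArg some (k3 e)]
  have p2 : ∀ o, Q o ^ 2 = (f.map (algebraMap k Ω)).eval (P o) := by
    rintro (_ | i)
    · simp [P, Q, ← map_pow, hy', aeval_algebraMap_apply]
    · simp [P, Q, ← map_pow, hy, aeval_algHom_apply]
  have p3 : ∀ o, ∑ j, algebraMap k Ω (τ j) * ph (od j) (P o) (Q o) = 0 := by
    rintro (_ | i)
    exacts [by simpa [map_ph, P, Q] using congrArg (algebraMap k Ω) t2, hc t0 i]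
  have a1 := sum_nm h1 h3 hf (fun o => (ns _ _).2 (p2 o)) p1
    (fun e => z2 (by simpa [t1] using congrFun e (Fin.last _))) p3
    ((nm_top f1' f3' (i := Fin.last _) fun j hj => (hj.not_ge j.le_last).elim).1.trans
      (by simp [od]))
  refine ⟨x', y', (ns_iff h1 h3 hf hs.of_mul_right _ _).2 (by simpa using hy'), τ,
    t1.trans_ne z2, t0, t2, ?_, ?_⟩
  · rw [Fintype.sum_option] at a1
    rw [map_neg]
    exact neg_eq_of_add_eq_zero_right a1
  have := H L x y x' y' (fun i => τ i.succ) T hL hx hy hy' ?_ (fun e => (key P Q _ p1 p2 p3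
    (congrArg _ t1) k2).1 k1 ?_) hz hT
  · exact (congrArg (· + _) (Tb.iS_eq (f := fun v => lm v _ _ _)).symm).trans_le this
  · rw [Fin.sum_univ_succ] at t0 t2
    simp only [Fin.val_zero, od, ph_zero, Fin.val_succ, if_pos, mul_one, Nat.succ_ne_zero,
      if_false] at t0 t2
    exact (eq_neg_of_add_eq_zero_right t0).trans
      ((map_neg _ _).symm.trans (congrArg _ (eq_neg_of_add_eq_zero_right t2).symm))
  · rw [show (fun o : Option (Fin (r + 2)) => o.elim (P none) fun i => algebraMap k Ω (τ i.succ)) =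
      algebraMap k Ω ∘ fun o => o.elim x' fun i => τ i.succ by ext (_ | _) <;> rfl,
      MvPolynomial.aeval_algebraMap_apply]
    simpa using e

theorem canon (k : Type) [Field k] [NumberField k] (Ω : Type) [Field Ω] [IsAlgClosed Ω]
    [Algebra k Ω] (W : WeierstrassCurve k) (h1 : W.a₁ = 0) (h3 : W.a₃ = 0) (G : k[X])
    (hs : (G * (X ^ 3 + C W.a₂ * X ^ 2 + C W.a₄ * X + C W.a₆)).Separable)
    (r : ℕ) (hr : 2 ≤ r) (ε : ℝ) (hε : 0 < ε) : ∃ Θ : MvPolynomial (Fin r ⊕ Fin r) k,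
      (∃ p q : Fin r → Ω, (∀ i, (W.toAffine⁄Ω).Nonsingular (p i) (q i)) ∧
        MvPolynomial.aeval (Sum.elim p q) Θ ≠ 0) ∧
      ∀ N : ℕ, N ≠ 0 → ∃ C : ℝ, ∀ (L : Type) [Field L] [NumberField L] [Algebra k L]
        (σ : Fin r ≃ (L →ₐ[k] Ω)) (x y : L) (h : (W.toAffine⁄L).Nonsingular x y)
        (T : Finset (FinitePlace L)), (∀ w, w ∈ T ↔ w N < 1) →
        MvPolynomial.aeval (Sum.elim (σ · x) (σ · y)) Θ ≠ 0 → aeval x G * y ≠ 0 →
        ∃ R : (W.toAffine⁄k).Point,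
          Point.baseChange k Ω R = ∑ i, Point.map (σ i) (.some x y h) ∧
          ∑ v : InfinitePlace L, v.mult *
            log (max 1 (v x) ^ (G.natDegree + 2) / v (aeval x G * y)) +
          ∑ v ∈ T, log (max 1 (v x) ^ (G.natDegree + 2) / v (aeval x G * y)) +
          (1 - ε) * logHeight R.xRep / 2 ≤ (r + ε) * logHeight₁ x / 2 + C := by
  obtain ⟨Θ, h0, H⟩ := canon₂ k Ω W h1 h3 G hs r hr ε hε
  refine ⟨Θ, h0, fun N hN => (H N hN).imp fun c H L _ _ _ σ x y h T hT hΘ hz => ?_⟩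
  obtain ⟨x', y', h', -, -, -, -, k1, k2⟩ := H L σ x y h T hT hΘ hz
  exact ⟨_, k1, by rwa [Point.xRep_neg, Point.xRep_some, ← logHeight₁_eq_logHeight]⟩

theorem plain (k : Type) [Field k] [NumberField k] (d r : ℕ) (e : Fin 3 → k) (b : Fin d → k)
    (hb : ∀ i j, Sum.elim e b i = Sum.elim e b j → i = j) (hr : 2 ≤ r) (ε : ℝ) (hε : 0 < ε) :
    ∃ Θ : MvPolynomial (Fin r ⊕ Fin r) k,
      (∃ p q : Fin r → AlgebraicClosure k, (∀ i, q i ^ 2 = ∏ l, (p i - algebraMap k _ (e l))) ∧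
        MvPolynomial.aeval (Sum.elim p q) Θ ≠ 0) ∧
      ∀ N : ℕ, N ≠ 0 → ∃ c : ℝ, ∀ (L : Type) [Field L] [NumberField L] [Algebra k L]
        (σ : Fin r → L →+* AlgebraicClosure k) (x y z : L) (T : Finset (FinitePlace L)),
        finrank k L = r → (∀ i a, σ i (algebraMap k L a) = algebraMap k _ a) →
        (∀ i j, σ i = σ j → i = j) → y ^ 2 = ∏ l, (x - algebraMap k L (e l)) →
        z = (∏ l, (x - algebraMap k L (b l))) * y → z ≠ 0 → (∀ w, w ∈ T ↔ w N < 1) →
        MvPolynomial.aeval (Sum.elim (σ · x) (σ · y)) Θ ≠ 0 →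
        ∃ (x' y' s : k) (t : Fin r → k), t ≠ 0 ∧ y' ^ 2 = ∏ l, (x' - e l) ∧
          algebraMap k L s + ∑ i, algebraMap k L (t i) *
            (x ^ (i.1 / 2 + 1 - i.1 % 2) * y ^ (i.1 % 2)) = 0 ∧
          s + ∑ i, t i * (x' ^ (i.1 / 2 + 1 - i.1 % 2) * y' ^ (i.1 % 2)) = 0 ∧
          ∑ v : InfinitePlace L, v.mult * log ((1 ⊔ v x) ^ (d + 2) / v z) +
          ∑ v ∈ T, log ((1 ⊔ v x) ^ (d + 2) / v z) +
          (1 - ε) * logHeight ![x', 1] / 2 ≤ (r + ε) * logHeight ![x, 1] / 2 + c := by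
  let W : WeierstrassCurve k :=
    ⟨0, -(e 0 + e 1 + e 2), 0, e 0 * e 1 + e 0 * e 2 + e 1 * e 2, -(e 0 * e 1 * e 2)⟩
  have hf : ∏ l, (X - C (e l)) = X ^ 3 + C W.a₂ * X ^ 2 + C W.a₄ * X + C W.a₆ := by
    simp [W, Fin.prod_univ_three]
    ring
  have hs : ((∏ l, (X - C (b l))) * ∏ l, (X - C (e l))).Separable := by
    simpa [mul_comm] using separable_prod_X_sub_C_iff.2 fun i j => hb i j
  have ns : ∀ (F : Type) [Field F] [Algebra k F] (x y : F), (W.toAffine⁄F).Nonsingular x y ↔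
      y ^ 2 = ∏ l, (x - algebraMap k F (e l)) := fun F _ _ x y => by
    have := charZero_of_injective_algebraMap (algebraMap k F).injective
    simp [ns_iff (W := W) rfl rfl hf hs.of_mul_right, Polynomial.map_prod, eval_prod]
  obtain ⟨Θ, ⟨p, q, k1, k2⟩, H⟩ := canon₂ k (AlgebraicClosure k) W rfl rfl _ (hf ▸ hs) r hr ε hε
  refine ⟨Θ, ⟨p, q, fun i => (ns _ _ _).1 (k1 i), k2⟩, fun N hN => (H N hN).imp
    fun c H L _ _ _ σ x y z T hL hσ hi hy hz h0 hT hΘ => ?_⟩
  have := Module.Finite.of_restrictScalars_finite ℚ k L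
  have hz' : aeval x (∏ l, (X - C (b l))) * y = z := by simp [hz]
  obtain ⟨x', y', h', τ, k3, k4, k5, -, k6⟩ := H L (Equiv.ofBijective
    (fun i => (⟨σ i, hσ i⟩ : L →ₐ[k] AlgebraicClosure k))
    ((Fintype.bijective_iff_injective_and_card _).2 ⟨fun i j h => hi i j (congrArg AlgHom.toRingHom h),
      by rw [AlgHom.card, hL, Fintype.card_fin]⟩)) x y ((ns _ _ _).2 hy) T hT hΘ (hz' ▸ h0)
  rw [hz', natDegree_finsetProd_X_sub_C_eq_card, card_univ, Fintype.card_fin,
    logHeight₁_eq_logHeight, logHeight₁_eq_logHeight] at k6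
  rw [Fin.sum_univ_succ] at k4 k5
  obtain ⟨r, rfl⟩ := Nat.exists_eq_add_of_le' hr
  refine ⟨x', y', τ 0, fun i => τ i.succ, fun h => k3 (congrFun h (Fin.last _)), (ns k _ _).1 h',
    ?_, ?_, k6⟩
  · simpa [od, ph, add_assoc] using k4
  · simpa [od, ph, add_assoc] using k5

end Pool.Agent.Lib.MP_651af7_nt.El
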