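import Pool.Agent.Lib.MP_651af7_nt.El.RR

/-! The basic functions, their norms, and general position. -/

namespace Pool.Agent.Lib.MP_651af7_nt.El

open Polynomial Finset

section ring

variable {R R' : Type} [CommRing R] [CommRing R']

/-- The basic function with a pole of order `m` at the origin. -/
def ph (m : ℕ) (x y : R) : R := x ^ (m / 2 - m % 2) * y ^ (m % 2)

/-- Its even part. -/
noncomputable def eA (m : ℕ) : R[X] := if m % 2 = 0 then X ^ (m / 2) else 0

/-- Its odd part. -/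
noncomputable def eB (m : ℕ) : R[X] := if m % 2 = 0 then 0 else X ^ (m / 2 - 1)

/-- The orders `0, 2, 3, 4, ...`. -/
def od (i : ℕ) : ℕ := if i = 0 then 0 else i + 1

/-- The polar form of the norm. -/
noncomputable def nu (f : R[X]) (m n : ℕ) : R[X] := eA m * eA n - eB m * f * eB n

/-- The norm of the function with coefficients `τ`. -/
noncomputable def nm {n : ℕ} (f : R[X]) (τ : Fin n → R) : R[X] :=
  ∑ p : Fin n × Fin n, C (τ p.1 * τ p.2) * nu f (od p.1) (od p.2)

theorem ph_eq (m : ℕ) (x y : R) : ph m x y = (eA m).eval x + (eB m).eval x * y := by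
  rcases Nat.mod_two_eq_zero_or_one m with h | h <;> simp [ph, eA, eB, h]

theorem map_ph (φ : R →+* R') (m : ℕ) (x y : R) : φ (ph m x y) = ph m (φ x) (φ y) := by
  simp [ph]

theorem map_nu (φ : R →+* R') (f : R[X]) (m n : ℕ) : (nu f m n).map φ = nu (f.map φ) m n := by
  simp only [nu, eA, eB]
  split_ifs <;> simp

theorem map_nm (φ : R →+* R') {n : ℕ} (f : R[X]) (τ : Fin n → R) :
    (nm f τ).map φ = nm (f.map φ) fun i => φ (τ i) := by
  simp [nm, Polynomial.map_sum, map_nu]

theorem eval_nm {n : ℕ} {f : R[X]} (τ : Fin n → R) {x y : R} (h : y ^ 2 = f.eval x) :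
    (nm f τ).eval x = (∑ i, τ i * ph (od i) x y) * ∑ i, τ i * ph (od i) x (-y) := by
  have e : (nm f τ).eval x = (∑ i, τ i * (eA (od i)).eval x) * (∑ i, τ i * (eA (od i)).eval x) -
      (∑ i, τ i * (eB (od i)).eval x) * (∑ i, τ i * (eB (od i)).eval x) * y ^ 2 := by
    rw [sum_mul_sum, sum_mul_sum]
    simp only [nm, nu, eval_finsetSum, eval_mul, eval_C, eval_sub, Fintype.sum_prod_type,
      sum_mul, ← sum_sub_distrib, h]
    exact sum_congr rfl fun _ _ => sum_congr rfl fun _ _ => by ring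
  simp only [e, ph_eq, mul_add, sum_add_distrib, ← mul_assoc, ← sum_mul]
  ring

theorem coeff_nm {n : ℕ} (f : R[X]) (τ : Fin n → R) (l : ℕ) : (nm f τ).coeff l =
    ∑ p : Fin n × Fin n, τ p.1 * τ p.2 * (nu f (od p.1) (od p.2)).coeff l := by
  simp only [nm, finsetSum_coeff, coeff_C_mul]

variable [Nontrivial R] {f : R[X]}

theorem nu_deg (h3 : f.natDegree = 3) {m n : ℕ} (hm : m ≠ 1) (hn : n ≠ 1) :
    2 * (nu f m n).natDegree ≤ m + n := by
  simp only [nu, eA, eB]
  split_ifs with h1 h2 h2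
  · simp only [mul_zero, sub_zero, ← pow_add, natDegree_X_pow]
    omega
  · simp
  · simp
  · have := natDegree_mul_le (p := (X ^ (m / 2 - 1) * f : R[X])) (q := X ^ (n / 2 - 1))
    have := natDegree_mul_le (p := (X ^ (m / 2 - 1) : R[X])) (q := f)
    simp only [mul_zero, zero_sub, natDegree_neg, natDegree_X_pow] at *
    omega

omit [Nontrivial R] in
theorem nu_top (hf : f.Monic) (h3 : f.natDegree = 3) {m : ℕ} (hm : m ≠ 1) :
    (nu f m m).coeff m = (-1) ^ m := by
  simp only [nu, eA, eB]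
  split_ifs with h1
  · rw [← pow_add, show m / 2 + m / 2 = m by omega, (Nat.even_iff.2 h1).neg_one_pow]
    simp
  · rw [(Nat.odd_iff.2 (by omega)).neg_one_pow, mul_right_comm, ← pow_add, mul_zero, zero_sub,
      coeff_neg, coeff_X_pow_mul', if_pos (by omega),
      show m - (m / 2 - 1 + (m / 2 - 1)) = f.natDegree by omega, hf.coeff_natDegree]

theorem nm_top (hf : f.Monic) (h3 : f.natDegree = 3) {n : ℕ} {τ : Fin n → R} {i : Fin n}
    (h : ∀ j, i < j → τ j = 0) :
    (nm f τ).natDegree ≤ od i ∧ (nm f τ).coeff (od i) = (-1) ^ od i * τ i ^ 2 := by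
  have h1 : ∀ j, od j ≠ 1 := fun j => by unfold od; split_ifs <;> omega
  have h2 : ∀ (p : Fin n × Fin n) (l : ℕ), od i ≤ l → p ≠ (i, i) ∨ od i < l →
      τ p.1 * τ p.2 * (nu f (od p.1) (od p.2)).coeff l = 0 := by
    rintro ⟨a, b⟩ l hl hp
    rcases lt_or_ge i a with ha | ha
    · simp [h a ha]
    rcases lt_or_ge i b with hb | hb
    · simp [h b hb]
    have := nu_deg h3 (h1 a) (h1 b)
    rw [coeff_eq_zero_of_natDegree_lt, mul_zero]
    simp only [ne_eq, Prod.mk.injEq, Fin.ext_iff, Fin.le_def, od] at *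
    split_ifs at * <;> omega
  refine ⟨natDegree_le_iff_coeff_eq_zero.2 fun l hl => ?_, ?_⟩
  · rw [coeff_nm]
    exact sum_eq_zero fun p _ => h2 p l hl.le (Or.inr hl)
  · rw [coeff_nm, sum_eq_single (i, i) (fun p _ hp => h2 p _ le_rfl (Or.inl hp)) (by simp),
      nu_top hf h3 (h1 i)]
    ring

end ring

variable {K : Type} [Field K] {f : K[X]}

theorem nm_zero (hf : f.Monic) (h3 : f.natDegree = 3) {n : ℕ} {τ : Fin n → K}
    (h : ∀ l : Fin (n + 1), (nm f τ).coeff l = 0) : τ = 0 := by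
  classical
  by_contra h0
  obtain ⟨i, hi, h1⟩ := exists_max_image (univ.filter fun i => τ i ≠ 0) id
    ((Function.ne_iff.1 h0).imp fun i hi => by simpa using hi)
  have h2 := (nm_top hf h3 (τ := τ) (i := i) fun j hj => by_contra fun e =>
    (h1 j (by simpa using e)).not_gt hj).2
  rw [h ⟨od i, by unfold od; split_ifs <;> omega⟩] at h2
  simp at hi h2
  exact hi h2

theorem ex_co (r : ℕ) (hr : 2 ≤ r) {a b : K[X]} (ha : a.degree < ((r + 1) / 2 + 1 : ℕ))
    (hb : b.degree < (r / 2 : ℕ)) : ∃ t : Fin r → K,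
      (∀ z : K × K, a.coeff 0 + ∑ i : Fin r, ph (i + 2) z.1 z.2 * t i = vl a b z) ∧
      (a.degree < (r / 2 + 1 : ℕ) → b.degree < ((r - 1) / 2 : ℕ) →
        ∀ i : Fin r, i + 1 = r → t i = 0) := by
  have d : ∀ {a : K[X]} {p : ℕ}, a.degree < p → 0 < p → a.natDegree < p := fun {a} _ h h0 => by
    rcases eq_or_ne a 0 with rfl | e
    exacts [h0, (natDegree_lt_iff_degree_lt e).2 h]
  refine ⟨fun i => if (i : ℕ) % 2 = 0 then a.coeff (i / 2 + 1) else b.coeff (i / 2), fun z => ?_,
    fun h1 h2 i hi => ?_⟩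
  · rw [vl, eval_eq_sum_range' (d ha (by omega)), eval_eq_sum_range' (d hb (by omega)),
      Fin.sum_univ_eq_sum_range fun i => ph (i + 2) z.1 z.2 *
        if i % 2 = 0 then a.coeff (i / 2 + 1) else b.coeff (i / 2)]
    clear ha hb hr
    induction r with
    | zero => simp
    | succ r ih =>
      rw [sum_range_succ, ← add_assoc, ih, ph, Nat.add_mod_right, Nat.add_div_right _ two_pos]
      rcases Nat.mod_two_eq_zero_or_one r with h | h
      · rw [show (r + 1 + 1) / 2 = r / 2 + 1 by omega, show (r + 1) / 2 = r / 2 by omega,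
          sum_range_succ _ (r / 2 + 1), h, if_pos rfl]
        simp only [Nat.sub_zero]
        ring
      · rw [show (r + 1 + 1) / 2 = r / 2 + 1 by omega, show (r + 1) / 2 = r / 2 + 1 by omega,
          sum_range_succ _ (r / 2), h, if_neg one_ne_zero]
        simp only [Nat.add_sub_cancel]
        ring
  · dsimp only
    split_ifs with h
    · exact coeff_eq_zero_of_degree_lt (h1.trans_le (by exact_mod_cast by omega))
    · exact coeff_eq_zero_of_degree_lt (h2.trans_le (by exact_mod_cast by omega))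

/-- The linear forms attached to the points `Q j` and to the origin. -/
def fm {ι : Type} (r : ℕ) (Q : ι → K × K) (x y : K) : Option ι → Fin r → K
  | none => fun i => if i + 1 = r then 1 else 0
  | some j => fun i => ph (i + 2) (Q j).1 (Q j).2 - ph (i + 2) x y

theorem gen_pos (hf : f.Monic) (h3 : f.natDegree = 3) {ι : Type} [Fintype ι] {Q : ι → K × K}
    (hQ : Function.Injective Q) (hE : ∀ j, (Q j).2 ^ 2 = f.eval (Q j).1) {r : ℕ} (hr : 2 ≤ r) :
    ∃ θ : K[X], θ ≠ 0 ∧ ∀ x y : K, y ^ 2 = f.eval x → θ.eval x ≠ 0 → ∀ I : Finset (Option ι),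
      I.card ≤ r → LinearIndependent K fun j : I => fm r Q x y j := by
  classical
  suffices h : ∀ I : Finset (Option ι), ∃ θ : K[X], θ ≠ 0 ∧ ∀ x y : K, y ^ 2 = f.eval x →
      θ.eval x ≠ 0 → I.card ≤ r → LinearIndependent K fun j : I => fm r Q x y j by
    choose θ h1 h2 using h
    exact ⟨∏ I, θ I, prod_ne_zero_iff.2 fun I _ => h1 I, fun x y hy h I => h2 I x y hy
      (prod_ne_zero_iff.1 (eval_prod univ θ x ▸ h) I (mem_univ _))⟩
  intro I
  rcases lt_or_ge r I.card with hc | hc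
  · exact ⟨1, one_ne_zero, fun _ _ _ _ h => (h.not_gt hc).elim⟩
  obtain ⟨n, hn, h1, h2⟩ : ∃ n, (I.eraseNone.image Q).card < n ∧ (n = r ∨ n = r + 1) ∧
      (none ∈ I → n = r) := by
    rw [card_image_of_injective _ hQ]
    by_cases h : none ∈ I
    · have := card_pos.2 ⟨_, h⟩
      exact ⟨r, by rw [card_eraseNone_of_mem h]; omega, Or.inl rfl, fun _ => rfl⟩
    · exact ⟨r + 1, by rw [card_eraseNone_of_not_mem h]; omega, Or.inr rfl, fun e => (h e).elim⟩
  have hI : ∀ z ∈ I.eraseNone.image Q, z.2 ^ 2 = f.eval z.1 := fun z hz => by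
    obtain ⟨j, -, rfl⟩ := mem_image.1 hz
    exact hE j
  obtain ⟨a, b, k0, k1, k2, k3⟩ := ex_van (I.eraseNone.image Q) (p := n / 2 + 1)
    (q := (n - 1) / 2) (by omega)
  refine ⟨_, (nm_deg hf h3 k0).1, fun x y hy hθ _ => linearIndependent_iff'.2 fun s c hs => ?_⟩
  have k4 : vl a b (x, y) ≠ 0 := fun e => hθ (by
    rw [vl] at e
    rw [eval_sub, eval_mul, eval_mul, eval_mul, ← hy]
    linear_combination (a.eval x - b.eval x * y) * e)
  have hm : ∀ {j}, some j ∈ I → Q j ∈ I.eraseNone.image Q := fun h =>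
    mem_image_of_mem _ (mem_eraseNone.2 h)
  have k5 : ∀ (j : ι) (hj : some j ∈ I), ⟨_, hj⟩ ∈ s → c ⟨_, hj⟩ = 0 := fun j hj hs' => by
    obtain ⟨a', b', l1, l2, l3, l4⟩ := rr hf h3 hI (hm hj) hn
    have d : ∀ {a a' : K[X]} {p : ℕ} (ρ : K), a.degree < p → a'.degree < p →
        (a' - C ρ * a).degree < p := fun ρ h h' => (degree_sub_le _ _).trans_lt
      (max_lt h' ((C_mul' ρ _ ▸ degree_smul_le ρ _).trans_lt h))
    obtain ⟨ρ, hρ⟩ : ∃ ρ, ρ = vl a' b' (x, y) / vl a b (x, y) := ⟨_, rfl⟩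
    obtain ⟨t, l5, l6⟩ := ex_co r hr ((d ρ k1 l1).trans_le (by exact_mod_cast by omega))
      ((d ρ k2 l2).trans_le (by exact_mod_cast by omega))
    have l7 : ∀ z, vl (a' - C ρ * a) (b' - C ρ * b) z = vl a' b' z - ρ * vl a b z := fun z => by
      simp only [vl, eval_sub, eval_mul, eval_C]
      ring
    have l8 : ∀ i, some i ∈ I → fm r Q x y (some i) ⬝ᵥ t = vl a' b' (Q i) := fun i hi => by
      have e1 := l5 (Q i)
      have e2 := l5 (x, y)
      rw [l7, k3 _ (hm hi)] at e1
      rw [l7, hρ, div_mul_cancel₀ _ k4, ← hρ] at e2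
      simp only [fm, dotProduct, sub_mul, sum_sub_distrib]
      linear_combination e1 - e2
    have l9 := congrArg (· ⬝ᵥ t) hs
    simp only [sum_dotProduct, smul_dotProduct, zero_dotProduct, smul_eq_mul] at l9
    rw [sum_eq_single_of_mem _ hs', l8 j hj] at l9
    · exact (mul_eq_zero.1 l9).resolve_right l4
    rintro ⟨_ | i, hi⟩ - hne
    · obtain rfl := h2 hi
      refine mul_eq_zero_of_right _ (sum_eq_zero fun l _ => ?_)
      simp only [fm]
      split_ifs with e
      · rw [l6 (d ρ k1 l1) (d ρ k2 l2) l e, mul_zero]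
      · exact zero_mul _
    · rw [l8 i hi, l3 _ (hm hi) fun e => hne (Subtype.ext (congrArg some (hQ e))), mul_zero]
  rintro ⟨_ | j, hj⟩ hs'
  · have := congrFun hs ⟨r - 1, by omega⟩
    rw [Finset.sum_apply, sum_eq_single_of_mem _ hs'] at this
    · simpa [fm, show r - 1 + 1 = r by omega] using this
    rintro ⟨_ | i, hi⟩ h hne
    · exact (hne rfl).elim
    · simp [k5 i hi h]
  · exact k5 j hj hs'

end Pool.Agent.Lib.MP_651af7_nt.El
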