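import Pool.Agent.Lib.MP_651af7_nt.Db.Main
import Pool.Agent.Lib.MP_651af7_nt.El.Ab
import Pool.Agent.Lib.MP_651af7_nt.El.Fn

/-! The inequality on the symmetric power of an elliptic curve. -/

namespace Pool.Agent.Lib.MP_651af7_nt.El

open MvPolynomial Finset Height NumberField Matrix
open Rt (Pl av mu)
open Es (mn)
open Ex (lx GenPos)

variable {K : Type} [Field K] {f : Polynomial K}

theorem dec (f : Polynomial K) {σ : Type} (P : MvPolynomial σ (MvPolynomial (Fin 3) K)) :
    ∃ A B : Polynomial (MvPolynomial σ K), ∀ (Ω : Type) [Field Ω] (φ : K →+* Ω) (x y : Ω)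
      (t : σ → Ω), y ^ 2 = f.eval₂ φ x → eval₂ (eval₂Hom φ ![x, y, 1]) t P =
        A.eval₂ (eval₂Hom φ t) x + B.eval₂ (eval₂Hom φ t) x * y := by
  let D : MvPolynomial σ (MvPolynomial (Fin 3) K) → Prop := fun P =>
    ∃ A B : Polynomial (MvPolynomial σ K), ∀ (Ω : Type) [Field Ω] (φ : K →+* Ω) (x y : Ω)
      (t : σ → Ω), y ^ 2 = f.eval₂ φ x → eval₂ (eval₂Hom φ ![x, y, 1]) t P =
        A.eval₂ (eval₂Hom φ t) x + B.eval₂ (eval₂Hom φ t) x * y
  have ad : ∀ P Q, D P → D Q → D (P + Q) := fun P Q ⟨A, B, h⟩ ⟨A', B', h'⟩ =>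
    ⟨A + A', B + B', fun Ω _ φ x y t e => by
      rw [eval₂_add, h Ω φ x y t e, h' Ω φ x y t e, Polynomial.eval₂_add, Polynomial.eval₂_add]
      ring⟩
  have ml : ∀ P Q, D P → D Q → D (P * Q) := fun P Q ⟨A, B, h⟩ ⟨A', B', h'⟩ =>
    ⟨A * A' + B * B' * f.map C, A * B' + A' * B, fun Ω _ φ x y t e => by
      have e1 : (eval₂Hom φ t).comp C = φ := RingHom.ext fun _ => eval₂Hom_C _ _ _
      rw [eval₂_mul, h Ω φ x y t e, h' Ω φ x y t e]
      simp only [Polynomial.eval₂_add, Polynomial.eval₂_mul, Polynomial.eval₂_map, e1, ← e]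
      ring⟩
  change D P
  induction P using MvPolynomial.induction_on with
  | C q =>
    induction q using MvPolynomial.induction_on with
    | C a => exact ⟨.C (C a), 0, fun Ω _ φ x y t e => by simp⟩
    | add p q hp hq => exact map_add (C (σ := σ)) p q ▸ ad _ _ hp hq
    | mul_X p i hp =>
      refine map_mul (C (σ := σ)) p _ ▸ ml _ _ hp ?_
      fin_cases i
      exacts [⟨.X, 0, fun Ω _ φ x y t e => by simp⟩, ⟨0, 1, fun Ω _ φ x y t e => by simp⟩,
        ⟨1, 0, fun Ω _ φ x y t e => by simp⟩]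
  | add p q hp hq => exact ad _ _ hp hq
  | mul_X p i hp => exact ml _ _ hp ⟨.C (X i), 0, fun Ω _ φ x y t e => by simp⟩

/-- The curve of a monic cubic. -/
def wc (f : Polynomial K) : WeierstrassCurve K := ⟨0, f.coeff 2, 0, f.coeff 1, f.coeff 0⟩

theorem cubic_eq (hf : f.Monic) (h3 : f.natDegree = 3) : f = .X ^ 3 + .C (f.coeff 2) * .X ^ 2 +
    .C (f.coeff 1) * .X + .C (f.coeff 0) := by
  conv_lhs => rw [f.as_sum_range_C_mul_X_pow, h3]
  simp only [sum_range_succ, sum_range_zero, h3 ▸ hf.coeff_natDegree, map_one]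
  ring

theorem wc_eval (hf : f.Monic) (h3 : f.natDegree = 3) {Ω : Type} [Field Ω] (φ : K →+* Ω)
    (x y : Ω) : eval₂Hom φ ![x, y, 1] (wc f).toProjective.polynomial = y ^ 2 - f.eval₂ φ x := by
  conv_rhs => rw [cubic_eq hf h3]
  simp [WeierstrassCurve.Projective.polynomial, wc, Polynomial.eval₂_pow]

theorem wc_ab [CharZero K] (hf : f.Monic) (h3 : f.natDegree = 3) (hs : f.Separable) :
    Ds.Abelian ((Ideal.span {(wc f).toProjective.polynomial}).map
      (MvPolynomial.map (algebraMap K (AlgebraicClosure K)))) := by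
  rw [Ideal.map_span, Set.image_singleton, ← WeierstrassCurve.Projective.map_polynomial]
  refine abelian_cubic fun x y h => (WeierstrassCurve.Affine.nonsingular_iff' ..).2 ⟨h, ?_⟩
  rw [WeierstrassCurve.Affine.equation_iff] at h
  by_contra! h1
  have h2 := hs.eval₂_derivative_ne_zero (algebraMap K (AlgebraicClosure K)) (x := x)
  rw [cubic_eq hf h3] at h2
  simp [wc, Polynomial.eval₂_pow] at h h1 h2
  rw [h1.2] at h
  exact h2 (by linear_combination -h) (by rw [map_ofNat]; linear_combination -h1.1)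

theorem dec_ne (hf : f.Monic) (h3 : f.natDegree = 3) {σ : Type}
    {P : MvPolynomial σ (MvPolynomial (Fin 3) K)} {s : ℕ} (hP : ∀ μ, (coeff μ P).IsHomogeneous s)
    (h : ∀ (x y : AlgebraicClosure K) (t : σ → AlgebraicClosure K),
      y ^ 2 = f.eval₂ (algebraMap _ _) x → eval₂ (eval₂Hom (algebraMap _ _) ![x, y, 1]) t P = 0)
    (μ : σ →₀ ℕ) : coeff μ P ∈ Ideal.span {(wc f).toProjective.polynomial} := by
  have hp := (Ideal.span_singleton_prime (prime_cubic (wc f)).ne_zero).2 (prime_cubic (wc f))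
  refine (hp.mem_or_mem (y := X 2) ?_).resolve_right fun e => ?_
  · rw [← IsPrime.vanishingIdeal_zeroLocus (K := AlgebraicClosure K) (Ideal.span _)]
    intro z hz
    rcases eq_or_ne (z 2) 0 with e | e
    · simp [e]
    have e1 : z = fun a => z 2 * ![z 0 / z 2, z 1 / z 2, 1] a := funext fun a => by
      fin_cases a <;> simp [mul_div_cancel₀ _ e]
    have e2 := hz _ (Ideal.mem_span_singleton_self _)
    rw [e1, Av.aeval_mul_of_hom (hom_cubic _), mul_eq_zero, or_iff_right (pow_ne_zero _ e)] at e2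
    have e3 : MvPolynomial.map (eval₂Hom (algebraMap K (AlgebraicClosure K))
        ![z 0 / z 2, z 1 / z 2, 1]) P = 0 := MvPolynomial.funext fun t => by
      rw [eval_map, map_zero]
      exact h _ _ t (sub_eq_zero.1 ((wc_eval hf h3 _ _ _).symm.trans e2))
    have e4 := congrArg (coeff μ) e3
    rw [coeff_map] at e4
    rw [map_mul, e1, Av.aeval_mul_of_hom (hP μ)]
    exact mul_eq_zero_of_left (mul_eq_zero_of_right _ e4) _
  · obtain ⟨q, hq⟩ := Ideal.mem_span_singleton.1 e
    have h1 := congrArg (totalDegree ·) hq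
    have h2 : q ≠ 0 := by
      rintro rfl
      simp at hq
    simp only [totalDegree_mul_of_isDomain (prime_cubic (wc f)).ne_zero h2, totalDegree_X,
      (hom_cubic (wc f)).totalDegree (prime_cubic (wc f)).ne_zero] at h1
    omega

/-- The basic functions as forms of degree `b`. -/
noncomputable def phh (b m : ℕ) : MvPolynomial (Fin 3) K :=
  X 0 ^ (m / 2 - m % 2) * X 1 ^ (m % 2) * X 2 ^ (b - m / 2)

theorem phh_hom {b m : ℕ} (h : m / 2 ≤ b) (h2 : 2 ≤ m) : (phh (K := K) b m).IsHomogeneous b := by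
  have := ((isHomogeneous_X_pow (R := K) (0 : Fin 3) (m / 2 - m % 2)).mul
    (isHomogeneous_X_pow 1 (m % 2))).mul (isHomogeneous_X_pow 2 (b - m / 2))
  rwa [show m / 2 - m % 2 + m % 2 + (b - m / 2) = b by omega] at this

theorem phh_eval (b m : ℕ) (x y : K) : eval ![x, y, 1] (phh b m) = ph m x y := by
  simp [phh, ph]

variable [NumberField K]

theorem ht_abs {ι : Type} [Finite ι] {u u' : ι → K} (h : ∀ i, u i = u' i ∨ u i = -u' i) :
    logHeight u = logHeight u' := by
  have h1 : ∀ (v : AbsoluteValue K ℝ) i, v (u i) = v (u' i) := fun v i => by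
    rcases h i with e | e <;> simp [e]
  rcases eq_or_ne u 0 with rfl | h0
  · obtain rfl : u' = 0 := funext fun i => by simpa [eq_comm] using h i
    rfl
  have h2 : u' ≠ 0 := by
    rintro rfl
    exact h0 (funext fun i => by simpa using h i)
  simp only [logHeight, Height.mulHeight_eq h0, Height.mulHeight_eq h2, h1]

theorem core (hf : f.Monic) (h3 : f.natDegree = 3) (hs : f.Separable) {ι : Type} [Fintype ι]
    {Q : ι → K × K} (hQ : Function.Injective Q) (hE : ∀ j, (Q j).2 ^ 2 = f.eval (Q j).1) {r : ℕ}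
    (hr : 2 ≤ r) {ε : ℝ} (hε : 0 < ε) : ∃ Θ : MvPolynomial (Option (Fin r)) K, Θ ≠ 0 ∧
      ∀ S : Finset (FinitePlace K), ∃ C : ℝ, ∀ (x y : K) (t : Fin r → K) (τ : Fin (r + 1) → K),
        y ^ 2 = f.eval x → τ = Fin.cons (-∑ i : Fin r, ph (i + 2) x y * t i) t →
        eval (fun o => o.elim x t) Θ ≠ 0 → τ (Fin.last r) ≠ 0 ∧ (∀ j, (Q j).1 ≠ x) ∧
        ((∀ j, fm r Q x y j ⬝ᵥ t ≠ 0) →
          ∑ p : Pl S, mu p * ∑ j, lx (av p) τ (fm r Q x y j ⬝ᵥ t) +
            (1 - ε) * logHeight (fun i : Fin (r + 1) => ph (od i) x y) ≤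
          (r + ε) * logHeight τ + C) := by
  classical
  obtain ⟨e⟩ : Nonempty (Fin (Fintype.card (Option ι)) ≃ Option ι) := ⟨(Fintype.equivFin _).symm⟩
  let B : Matrix (Fin (r + 1)) (Fin r) (MvPolynomial (Fin 3) K) := Matrix.of
    (Fin.cons (fun i => -phh (r + 1) (i + 2)) fun j i => if j = i then X 2 ^ (r + 1) else 0)
  let L : Option ι → Fin r → MvPolynomial (Fin 3) K := fun j i => j.elim
    (if i + 1 = r then X 2 ^ (r + 1) else 0)
    fun j => C (ph (i + 2) (Q j).1 (Q j).2) * X 2 ^ (r + 1) - phh (r + 1) (i + 2)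
  have k0 : ∀ (c : Prop) [Decidable c], (if c then X 2 ^ (r + 1) else 0 :
      MvPolynomial (Fin 3) K).IsHomogeneous (r + 1) := fun c _ => by
    split_ifs
    exacts [isHomogeneous_X_pow _ _, isHomogeneous_zero _ _ _]
  have k1 : ∀ i : Fin r, (phh (K := K) (r + 1) (i + 2)).IsHomogeneous (r + 1) := fun i =>
    phh_hom (by omega) (by omega)
  obtain ⟨P, s, s', -, k2, ⟨μ, k3⟩, H⟩ := Db.vb_abelian (hom_span (wc f)) (wc_ab hf h3 hs)
    (r + 1) r _ (r + 1) B (fun j i => by
      refine Fin.cases ?_ (fun j => ?_) j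
      exacts [(k1 i).neg, k0 _]) (fun j => L (e j)) (fun _ => r + 1) (fun j i => by
      rcases e j with _ | j
      exacts [k0 _, ((isHomogeneous_X_pow _ _).C_mul _).sub (k1 i)]) ε hε
  obtain ⟨A, A', k4⟩ := dec f P
  have k5 : A ≠ 0 ∨ A' ≠ 0 := by
    by_contra! h
    exact k3 (dec_ne hf h3 k2 (fun x y t hy => by simp [k4 _ _ x y t hy, h.1, h.2]) μ)
  obtain ⟨θ, k6, k7⟩ := gen_pos hf h3 hQ hE hr
  have k8 := (nm_deg (hf.map C) ((hf.natDegree_map _).trans h3) k5).1
  refine ⟨(optionEquivLeft K (Fin r)).symm ((A * A - A' * f.map C * A') *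
    .C (X ⟨r - 1, by omega⟩) * (θ * ∏ j, (.X - .C (Q j).1)).map C), ?_, fun S => ?_⟩
  · rw [EmbeddingLike.map_ne_zero_iff]
    exact mul_ne_zero (mul_ne_zero k8 (Polynomial.C_ne_zero.2 (X_ne_zero _)))
      ((Polynomial.map_ne_zero_iff (C_injective _ _)).2 (mul_ne_zero k6
        (prod_ne_zero_iff.2 fun j _ => Polynomial.X_sub_C_ne_zero _)))
  obtain ⟨C₀, H⟩ := H S
  refine ⟨C₀, fun x y t τ hy hτ hΘ => ?_⟩
  have e1 : (eval t).comp C = RingHom.id K := RingHom.ext fun _ => eval_C _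
  rw [optionEquivLeft_elim_eval, AlgEquiv.apply_symm_apply, Polynomial.eval_map] at hΘ
  simp only [Polynomial.eval₂_mul, Polynomial.eval₂_map, e1, Polynomial.eval₂_id, mul_ne_zero_iff,
    Polynomial.eval₂_sub, Polynomial.eval₂_C, eval_X, Polynomial.eval₂_finsetProd,
    Polynomial.eval₂_X, prod_ne_zero_iff, RingHom.id_apply] at hΘ
  obtain ⟨⟨l1, l2⟩, l3, l4⟩ := hΘ
  refine ⟨?_, fun j => (sub_ne_zero.1 (l4 j (mem_univ _))).symm, fun hne => ?_⟩
  · rwa [hτ, show Fin.last r = Fin.succ ⟨r - 1, by omega⟩ from Fin.ext (by simp; omega)]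
  have eL : ∀ j, (fun i => eval ![x, y, 1] (L j i)) = fm r Q x y j := by
    rintro (_ | j) <;> ext i <;> simp [L, fm, phh_eval, apply_ite]
  have eB : B.map (eval ![x, y, 1]) = Matrix.of (Fin.cons (fun i : Fin r => -ph (i + 2) x y)
      fun j => (1 : Matrix (Fin r) (Fin r) K) j) := by
    ext j i
    refine Fin.cases ?_ (fun j => ?_) j <;> simp [B, phh_eval, apply_ite, one_apply]
  have eτ : B.map (eval ![x, y, 1]) *ᵥ t = τ := by
    rw [eB, hτ]
    ext j
    refine Fin.cases ?_ (fun j => ?_) j <;> simp [mulVec, dotProduct, one_apply]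
  have e0 : mn (B.map (eval ![x, y, 1])) Fin.succ = 1 := by
    rw [eB, mn]
    exact det_one
  have e2 : ∀ i, mn (B.map (eval ![x, y, 1])) (Function.update Fin.succ i 0) =
      -ph (i + 2) x y := fun i => by
    have := cramer_transpose_apply (1 : Matrix (Fin r) (Fin r) K) (fun i => -ph (i + 2) x y) i
    rw [transpose_one, cramer_one] at this
    rw [eB, mn]
    refine Eq.trans (congrArg det ?_) this.symm
    ext j l
    by_cases h : j = i <;> simp [h, updateRow_apply]
  have e3 : logHeight (fun i : Fin (r + 1) => ph (od i) x y) ≤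
      logHeight (mn (B.map (eval ![x, y, 1]))) := by
    refine le_trans (ht_abs fun i => ?_).le
      (logHeight_comp_le (Fin.cons Fin.succ fun i => Function.update Fin.succ i 0 :
        Fin (r + 1) → Fin r → Fin (r + 1)) _)
    refine Fin.cases ?_ (fun i => ?_) i
    · simp [e0, od, ph]
    · simp [e2, od]
  have e4 : logHeight ![x, y, 1] ≤ logHeight fun i : Fin (r + 1) => ph (od i) x y := by
    refine le_trans (le_of_eq (congrArg _ ?_))
      (logHeight_comp_le ![⟨1, by omega⟩, ⟨2, by omega⟩, ⟨0, by omega⟩] _)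
    ext i
    fin_cases i <;> simp [od, ph]
  have h0 : (![x, y, 1] : Fin 3 → K) ≠ 0 := fun h => one_ne_zero (congrFun h 2)
  have H1 := H ![x, y, 1] t (fun _ => univ) h0 (fun g hg => by
      obtain ⟨q, rfl⟩ := Ideal.mem_span_singleton.1 hg
      exact (map_mul _ _ _).trans (mul_eq_zero_of_left
        ((wc_eval hf h3 (RingHom.id K) x y).trans (sub_eq_zero.2 hy)) _))
    (fun h => l1 (by
      have := (k4 K (RingHom.id K) x y t hy).symm.trans h
      change A.eval₂ (eval t) x + A'.eval₂ (eval t) x * y = 0 at this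
      rw [← hy]
      linear_combination (A.eval₂ (eval t) x - A'.eval₂ (eval t) x * y) * this))
    (fun h => one_ne_zero (e0.symm.trans (congrFun h _)))
    (fun _ I _ hI => by
      simp only [eL]
      exact (k7 x y hy l3 (I.map e.toEmbedding) (by simpa using hI)).comp
        (fun j : I => ⟨e j, mem_map_of_mem _ j.2⟩) fun _ _ h => Subtype.ext (by simpa using h))
    fun _ j _ => (congrArg (· ⬝ᵥ t) (eL (e j))).trans_ne (hne _)
  have e5 : ∀ p : Pl S, ∑ j, As.lamB (av p) (r + 1) (r + 1) ![x, y, 1] τ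
      (∑ l, eval ![x, y, 1] (L (e j) l) * t l) = ∑ j, lx (av p) τ (fm r Q x y j ⬝ᵥ t) := fun p => by
    rw [← e.sum_comp]
    refine sum_congr rfl fun j _ => ?_
    rw [As.lamB, mul_div_mul_left _ _ (pow_ne_zero _ (Db.sup_pos _ h0).ne'), ← eL]
    rfl
  simp only [eτ, e5] at H1
  have := mul_le_mul_of_nonneg_left e4 hε.le
  linarith

end Pool.Agent.Lib.MP_651af7_nt.El
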