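import Pool.Agent.Lib.MP_651af7_nt.Jn.Gel
import Pool.Agent.Lib.MP_651af7_nt.Db.Pl
import Pool.Agent.Lib.MP_651af7_nt.Tb.Pl
import Pool.Agent.Lib.MP_651af7_nt.Av.MWNull
import Pool.Agent.Lib.MP_651af7_nt.El.Fn

/-! Heights of norms and of products of linear factors; change of the field. -/

namespace Pool.Agent.Lib.MP_651af7_nt.El

open Finset Height NumberField Module Tb
open Rt (Pl av mu)

variable {K : Type} [Field K] [NumberField K]

section forms

open MvPolynomial

attribute [local instance] MvPolynomial.gradedAlgebra in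
theorem ht_low {ν κ : Type} [Fintype ν] [Fintype κ] {d : ℕ} (p : κ → MvPolynomial ν K)
    (hp : ∀ j, (p j).IsHomogeneous d)
    (h0 : ∀ z : ν → AlgebraicClosure K, (∀ j, aeval z (p j) = 0) → z = 0) :
    ∃ C : ℝ, ∀ y : ν → K, C + d * logHeight y ≤ logHeight fun j => eval y (p j) := by
  choose M hM using fun a : ν => Av.null_cert (AlgebraicClosure K) ⊥ p (X a) fun z _ h =>
    (aeval_X z a).trans (congrFun (h0 z h) a)
  choose H h1 h2 using fun a : ν => (hM a (∑ b, M b + d) ((single_le_sum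
    (fun _ _ => Nat.zero_le _) (mem_univ a)).trans (Nat.le_add_right _ _))).elim fun H hH =>
      Av.homog_cert (Ideal.IsHomogeneous.bot _) hp (isHomogeneous_X_pow a _) hH
  obtain ⟨C, hC⟩ := logHeight_eval_ge' (N := d) (q := fun q : ν × κ => H q.1 q.2)
    fun q => h1 q.1 q.2
  refine ⟨C, fun y => hC _ fun a => Eq.symm ?_⟩
  simpa only [map_sub, map_pow, eval_X, map_sum, map_mul, sub_eq_zero, map_zero] using
    congrArg (eval y) (Ideal.mem_bot.1 (h2 a))

theorem poly_low {p : Polynomial K} {d : ℕ} (h1 : p.natDegree ≤ d) (h2 : p.coeff d ≠ 0) :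
    ∃ C : ℝ, ∀ x : K, C + d * logHeight₁ x ≤ logHeight₁ (p.eval x) := by
  obtain ⟨C₀, h⟩ := ht_low (d := d) (![∑ i ∈ range (d + 1), C (p.coeff i) * (X 0 ^ i * X 1 ^ (d - i)),
    X 1 ^ d] : Fin 2 → MvPolynomial (Fin 2) K) (fun j => by
      fin_cases j
      · refine IsHomogeneous.sum (range (d + 1)) (fun i => C (p.coeff i) * (X 0 ^ i * X 1 ^ (d - i)))
          _ fun i hi => IsHomogeneous.C_mul ?_ _
        have := (isHomogeneous_X_pow (R := K) (0 : Fin 2) i).mul (isHomogeneous_X_pow 1 (d - i))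
        rwa [Nat.add_sub_cancel' (Nat.lt_succ_iff.1 (mem_range.1 hi))] at this
      · exact isHomogeneous_X_pow _ _) fun z hz => by
      have e1 : z 1 = 0 ∧ d ≠ 0 := by simpa using hz 1
      have e0 := hz 0
      simp only [Matrix.cons_val_zero, map_sum, map_mul, map_pow, aeval_X, aeval_C, e1.1] at e0
      rw [sum_range_succ, sum_eq_zero fun i hi => by
        simp [Nat.sub_ne_zero_of_lt (mem_range.1 hi)]] at e0
      ext i
      fin_cases i
      · simpa [h2, e1.2] using e0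
      · exact e1.1
  refine ⟨C₀, fun x => ?_⟩
  rw [logHeight₁_eq_logHeight, logHeight₁_eq_logHeight]
  refine (h _).trans_eq (congrArg _ (funext fun j => ?_))
  fin_cases j <;> simp [Polynomial.eval_eq_sum_range' (Nat.lt_succ_of_le h1)]

theorem nm_low {f : Polynomial K} (hf : f.Monic) (h3 : f.natDegree = 3) (n : ℕ) : ∃ C : ℝ,
    ∀ τ : Fin n → K, C + 2 * logHeight τ ≤ logHeight fun l : Fin (n + 1) => (nm f τ).coeff l := by
  obtain ⟨C₀, h⟩ := ht_low (d := 2) (fun l : Fin (n + 1) => ∑ p : Fin n × Fin n,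
    C ((nu f (od p.1) (od p.2)).coeff l) * (X p.1 * X p.2 : MvPolynomial (Fin n) K))
    (fun l => IsHomogeneous.sum _ _ _ fun p _ =>
      ((isHomogeneous_X K p.1).mul (isHomogeneous_X K p.2)).C_mul _) fun z hz =>
      nm_zero (hf.map (algebraMap K _)) ((hf.natDegree_map _).trans h3) fun l => by
        simpa [coeff_nm, ← map_nu, mul_comm] using hz l
  exact ⟨C₀, fun τ => (h τ).trans_eq (congrArg _ (funext fun l => by simp [coeff_nm, mul_comm]))⟩

end forms

open Polynomial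

theorem ph_low {f : K[X]} (hf : f.Monic) (h3 : f.natDegree = 3) {r : ℕ} (hr : 1 ≤ r) : ∃ C : ℝ,
    ∀ x y : K, y ^ 2 = f.eval x → C + (r + 1) * logHeight₁ x ≤
      2 * logHeight fun i : Fin (r + 1) => ph (od i) x y := by
  have h1 := nu_deg h3 (m := r + 1) (n := r + 1) (by omega) (by omega)
  obtain ⟨C, h⟩ := poly_low (p := nu f (r + 1) (r + 1)) (d := r + 1) (by omega)
    (by rw [nu_top hf h3 (by omega)]; simp)
  refine ⟨C, fun x y hy => ?_⟩
  have h2 : logHeight₁ ((nu f (r + 1) (r + 1)).eval x) = logHeight₁ (ph (r + 1) x y ^ 2) := by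
    rcases Nat.mod_two_eq_zero_or_one (r + 1) with e | e
    · simp [nu, ph_eq, eA, eB, e, sq]
    · rw [← logHeight₁_neg]
      simp only [nu, ph_eq, eA, eB, e, one_ne_zero, if_false, eval_sub, eval_mul, ← hy, eval_zero]
      congr 1
      ring
  have h4 := logHeight_comp_le ![Fin.last r, 0] fun i : Fin (r + 1) => ph (od i) x y
  have h5 := h x
  rw [h2, logHeight₁_pow, logHeight₁_eq_logHeight (ph _ _ _)] at h5
  rw [show _ ∘ _ = ![ph (r + 1) x y, 1] from funext fun i => by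
    fin_cases i <;> simp [od, ph, show r ≠ 0 by omega]] at h4
  push_cast at h5
  linarith

theorem prod_cmp {v : AbsoluteValue K ℝ} (hv : Av.Adm v) {ι : Type} (s : Finset ι) (ξ : ι → K) :
    (∀ i, v ((∏ j ∈ s, (X - C (ξ j))).coeff i) ≤
      Av.E (IsNonarchimedean v) 2 ^ (2 * s.card) * ∏ j ∈ s, max 1 (v (ξ j))) ∧
    ∀ B, 0 ≤ B → (∀ i, v ((∏ j ∈ s, (X - C (ξ j))).coeff i) ≤ B) →
      ∏ j ∈ s, max 1 (v (ξ j)) ≤ Av.E (IsNonarchimedean v) 2 ^ (2 * s.card) * B := by
  obtain ⟨Mh, h0, h1, h2, h3, h4⟩ := Jn.gl_measure hv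
  have hE : 0 ≤ Av.E (IsNonarchimedean v) 2 := by unfold Av.E; split_ifs <;> norm_num
  generalize Av.E (IsNonarchimedean v) 2 = E at *
  have k1 : Mh (∏ j ∈ s, (X - C (ξ j))) = ∏ j ∈ s, Mh (X - C (ξ j)) :=
    map_prod (⟨⟨Mh, h1⟩, h2⟩ : K[X] →* ℝ) _ _
  have k2 : (∏ j ∈ s, (X - C (ξ j))).natDegree ≤ s.card := (natDegree_finsetProd_X_sub_C_eq_card ..).le
  refine ⟨fun i => (h3 _ _ i k2).trans ?_, fun B hB h => ?_⟩
  · rw [k1, two_mul, pow_add, mul_assoc]
    refine mul_le_mul_of_nonneg_left ?_ (pow_nonneg hE _)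
    rw [← prod_const, ← prod_mul_distrib]
    refine prod_le_prod (fun _ _ => h0 _) fun j _ => ?_
    refine (h4 _ 1 (max 1 (v (ξ j))) (natDegree_X_sub_C_le _) (by positivity) fun i => ?_).trans_eq
      (by rw [pow_one])
    rcases i with _ | _ | i <;> simp [coeff_X, coeff_C]
  · rw [two_mul, pow_add, mul_assoc]
    refine le_trans ?_ (mul_le_mul_of_nonneg_left (h4 _ _ B k2 hB h) (by positivity))
    rw [k1, ← prod_const, ← prod_mul_distrib]
    refine prod_le_prod (fun _ _ => by positivity) fun j _ => max_le ?_ ?_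
    · simpa using h3 _ 1 1 (natDegree_X_sub_C_le (ξ j))
    · simpa using h3 _ 1 0 (natDegree_X_sub_C_le (ξ j))

theorem ht_prod {ι κ : Type} [Finite κ] (s : Finset ι) (ξ : ι → K) (l : κ → ℕ) :
    logHeight (fun i => (∏ j ∈ s, (X - C (ξ j))).coeff (l i)) ≤
      ∑ j ∈ s, logHeight₁ (ξ j) + 2 * s.card * Real.log 2 * finrank ℚ K := by
  have h2 : 0 ≤ Real.log 2 := Real.log_nonneg one_le_two
  rcases eq_or_ne (fun i => (∏ j ∈ s, (X - C (ξ j))).coeff (l i)) (0 : κ → K) with e | e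
  · rw [e, logHeight_zero]
    exact add_nonneg (sum_nonneg fun _ _ => zero_le_logHeight₁ _) (by positivity)
  have k1 : ∀ w : AbsoluteValue K ℝ, Av.Adm w →
      ls (fun i => (∏ j ∈ s, (X - C (ξ j))).coeff (l i)) w ≤
        ∑ j ∈ s, ls ![ξ j, 1] w + 2 * s.card * Real.log (Av.E (IsNonarchimedean w) 2) := by
    intro w hw
    have hE : 0 < Av.E (IsNonarchimedean w) 2 := by unfold Av.E; split_ifs <;> norm_num
    refine ls_le e fun i => ((prod_cmp hw s ξ).1 _).trans ?_
    rw [Real.exp_add, Real.exp_sum, mul_comm, show (2 * s.card : ℝ) = (2 * s.card : ℕ) by simp,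
      Real.exp_nat_mul, Real.exp_log hE]
    refine mul_le_mul_of_nonneg_right (prod_le_prod (fun _ _ => by positivity) fun j _ =>
      max_le ?_ ?_) (by positivity)
    · simpa using le_exp_ls ![ξ j, 1] w 1
    · exact le_exp_ls ![ξ j, 1] w 0
  have k2 : ∀ j, logHeight₁ (ξ j) = iS ∅ (ls ![ξ j, 1]) + oS ∅ (ls ![ξ j, 1]) := fun j => by
    rw [logHeight₁_eq_logHeight, ht_split ∅ fun h => one_ne_zero (congrFun h 1)]
  have k3 := oS_mono (S := ∅) (fs_ls _) (FS.sum s fun j => fs_ls ![ξ j, 1]) fun w _ => by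
    simpa [Av.E_pos_case (show IsNonarchimedean w.1 from w.add_le)] using k1 w.1 (Or.inr w.2)
  have k4 := iS_mono (S := ∅) (g := fun w => ∑ j ∈ s, ls ![ξ j, 1] w + 2 * s.card * Real.log 2)
    fun p => (k1 _ (Rt.adm_av p)).trans (by
      gcongr
      · unfold Av.E; split_ifs <;> norm_num
      · unfold Av.E; split_ifs <;> norm_num)
  rw [iS_add, iS_sum, iS_eq (f := fun _ => 2 * s.card * Real.log 2), sum_empty, ← sum_mul, ← Nat.cast_sum,
    InfinitePlace.sum_mult_eq] at k4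
  rw [oS_sum _ fun j => fs_ls _] at k3
  simp only [ht_split ∅ e, k2, sum_add_distrib]
  linarith

section change

variable {L : Type} [Field L] [NumberField L]

theorem tr_ht (φ : K →+* L) {ι : Type} [Finite ι] (x : ι → K) :
    finrank ℚ K * logHeight (fun i => φ (x i)) = finrank ℚ L * logHeight x := by
  let _ := φ.toAlgebra
  have := Fintype.ofFinite ι
  rw [← finrank_mul_finrank ℚ K L, Nat.cast_mul, mul_assoc]
  exact congrArg _ (MP_651af7_nt.Final.logHeight_algebraMap x)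

theorem tr_ht₁ (φ : K →+* L) (x : K) :
    finrank ℚ K * logHeight₁ (φ x) = finrank ℚ L * logHeight₁ x := by
  rw [logHeight₁_eq_logHeight, logHeight₁_eq_logHeight, ← tr_ht φ]
  congr 2
  ext i
  fin_cases i <;> simp

theorem tr_pl (φ : K →+* L) {N : ℕ} (hN : N ≠ 0) {S : Finset (FinitePlace K)}
    {T : Finset (FinitePlace L)} (hS : ∀ v, v ∈ S ↔ v N < 1) (hT : ∀ w, w ∈ T ↔ w N < 1) :
    ∃ (β : Pl T → Pl S) (n : Pl T → ℕ), (∀ p, n p ≠ 0) ∧
      (∀ p a, av p (φ a) = av (β p) a ^ n p) ∧ ∀ g : Pl S → ℝ,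
        finrank ℚ K * ∑ p, mu p * (n p * g (β p)) = finrank ℚ L * ∑ s, mu s * g s := by
  classical
  let _ := φ.toAlgebra
  obtain ⟨T₀, β, n, h1, h2⟩ := Db.exists_below (K := L) S
  have h3 : ∀ p, n p ≠ 0 := fun p e => by simpa [e] using h1 p 0
  obtain rfl : T = T₀ := by
    have k0 : ∀ {F : Type} [Field F] [NumberField F] (w : FinitePlace F) (m : ℕ), w.1 m ≤ 1 :=
      fun w m => IsNonarchimedean.apply_natCast_le_one (f := w.1) w.add_le
    have k1 := pf_split S (c := N) (Nat.cast_ne_zero.2 hN)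
    have k2 := pf_split T₀ (c := N) (Nat.cast_ne_zero.2 hN)
    have k3 : oS S (fun w => Real.log (w N)) = 0 := finsum_mem_eq_zero_of_forall_eq_zero
      fun v hv => (congrArg _ (le_antisymm (k0 v N) (not_lt.1 fun h => hv ((hS v).2 h)))).trans
        Real.log_one
    have k4 := h2 fun s => Real.log (av s N)
    have k6 : ∀ p, n p * Real.log (av (β p) N) = Real.log (av p N) := fun p => by
      rw [← Real.log_pow, ← h1, map_natCast]
    simp only [k6] at k4
    rw [k3, add_zero] at k1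
    rw [iS] at k1
    rw [iS, k4, k1, mul_zero, zero_add, oS_eq (fs_log _) (Subset.refl _),
      sum_eq_zero_iff_of_nonpos fun w _ => Real.log_nonpos (w.1.nonneg _) (k0 w N)] at k2
    ext w
    rw [hT]
    refine ⟨fun h => by_contra fun h' => ?_, fun h => ?_⟩
    · have := Real.log_neg (w.1.pos (Nat.cast_ne_zero.2 hN)) h
      exact this.ne (k2 w (mem_sdiff.2 ⟨(Set.Finite.mem_toFinset _).2 this.ne, h'⟩))
    have k5 := h1 (.inr ⟨w, h⟩)
    rcases hb : β (.inr ⟨w, h⟩) with v | v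
    · have := k0 w 2
      rw [← map_natCast (algebraMap K L)] at this
      replace this := (k5 _).symm.trans_le this
      rw [hb, pow_le_one_iff_of_nonneg ((av _).nonneg _) (h3 _)] at this
      have e : av (S := S) (.inl v) (2 : ℕ) = (2 : ℕ) := InfinitePlace.map_natCast v 2
      rw [e, Nat.cast_ofNat] at this
      linarith
    · have := k5 N
      rw [map_natCast, hb] at this
      exact this.trans_lt (pow_lt_one₀ ((av _).nonneg _) ((hS v).1 v.2) (h3 _))
  refine ⟨β, n, h3, h1, fun g => ?_⟩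
  rw [h2, ← finrank_mul_finrank ℚ K L, Nat.cast_mul, mul_assoc]

theorem ex_pl (K : Type) [Field K] [NumberField K] {N : ℕ} (hN : N ≠ 0) :
    ∃ S : Finset (FinitePlace K), ∀ v, v ∈ S ↔ v N < 1 :=
  ⟨(FinitePlace.hasFiniteMulSupport (Nat.cast_ne_zero.2 hN : (N : K) ≠ 0)).toFinset, fun v => by
    rw [Set.Finite.mem_toFinset, Function.mem_mulSupport]
    exact ⟨(IsNonarchimedean.apply_natCast_le_one (f := v.1) v.add_le).lt_of_ne, ne_of_lt⟩⟩

end change

end Pool.Agent.Lib.MP_651af7_nt.El
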