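import Pool.Agent.Lib.MP_651af7_nt.El.Ht
import Pool.Agent.Lib.MP_651af7_nt.As.XPre

/-! Local comparisons, and the fields that are needed. -/

namespace Pool.Agent.Lib.MP_651af7_nt.El

open Finset Height NumberField Module Polynomial Real
open Ex (lx)

variable {K : Type} [Field K] [NumberField K]

/-- A local height. -/
noncomputable def lm (v : AbsoluteValue K ℝ) (d : ℕ) (x z : K) : ℝ := log (max 1 (v x) ^ d / v z)

omit [NumberField K] in
theorem sup_mon (v : AbsoluteValue K ℝ) {m : K[X]} {r : ℕ} (h1 : m.Monic) (h2 : m.natDegree = r) :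
    1 ≤ ⨆ i : Fin (r + 1), v (m.coeff i) ∧ ∀ l, v (m.coeff l) ≤ ⨆ i : Fin (r + 1), v (m.coeff i) := by
  have h3 := Finite.le_ciSup fun i : Fin (r + 1) => v (m.coeff i)
  have h4 : 1 ≤ ⨆ i : Fin (r + 1), v (m.coeff i) := by
    simpa [← h2, h1.coeff_natDegree] using h3 (Fin.last r)
  refine ⟨h4, fun l => ?_⟩
  rcases lt_or_ge r l with h | h
  · rw [coeff_eq_zero_of_natDegree_lt (h2 ▸ h), map_zero]
    linarith
  · exact h3 ⟨l, Nat.lt_succ_of_le h⟩

theorem loc {v : AbsoluteValue K ℝ} (hv : Av.Adm v) {f : K[X]} (r : ℕ) {ι : Type} [Fintype ι]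
    {Q : ι → K × K} (hE : ∀ j, (Q j).2 ^ 2 = f.eval (Q j).1) (σ : ι ≃ ι)
    (hσ : ∀ j, Q (σ j) = ((Q j).1, -(Q j).2)) : ∃ c : ℝ, ∀ (τ : Fin (r + 1) → K) (x c₀ : K)
      (m : K[X]) (g : Option ι → K), m.Monic → m.natDegree = r →
      nm f τ = C c₀ * m * (X - C x) → v c₀ = v (g none) ^ 2 →
      (∀ j, g (some j) = ∑ i, τ i * ph (od i) (Q j).1 (Q j).2) → (∀ j, g j ≠ 0) → τ ≠ 0 →
      (Fintype.card ι + 1) * log (⨆ i : Fin (r + 1), v (m.coeff i)) -
        log (v (∏ j, m.eval (Q j).1)) ≤ 2 * ∑ j, lx v τ (g j) + c := by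
  obtain ⟨c₁, h0, h1⟩ : ∃ c₁ : ℝ, 0 < c₁ ∧ ∀ (τ : Fin (r + 1) → K) l,
      v ((nm f τ).coeff l) ≤ c₁ * (⨆ i, v (τ i)) ^ 2 := by
    refine ⟨∑ p : Fin (r + 1) × Fin (r + 1), ∑ l ∈ (nu f (od p.1) (od p.2)).support,
      v ((nu f (od p.1) (od p.2)).coeff l) + 1, by positivity, fun τ l => ?_⟩
    rw [coeff_nm, add_mul, sum_mul]
    refine ((v.sum_le _ _).trans (sum_le_sum fun p _ => ?_)).trans
      (le_add_of_nonneg_right (by positivity))
    have k := Finite.le_ciSup fun i => v (τ i)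
    rw [map_mul, map_mul, mul_comm, sq]
    refine mul_le_mul ?_ (mul_le_mul (k _) (k _) (v.nonneg _) ((v.nonneg _).trans (k 0)))
      (by positivity) (by positivity)
    by_cases h : l ∈ (nu f (od p.1) (od p.2)).support
    · exact single_le_sum (f := fun l => v ((nu f (od p.1) (od p.2)).coeff l))
        (fun _ _ => v.nonneg _) h
    · rw [notMem_support_iff.1 h, map_zero]
      positivity
  refine ⟨(Fintype.card ι + 1) * log (2 ^ (r + 1 * 1 + (r + 1)) * c₁) +
    ∑ j, log (v (Q j).1 + 1), fun τ x c₀ m g k1 k2 k3 k4 k5 k6 k7 => ?_⟩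
  have hT : 0 < ⨆ i, v (τ i) :=
    let ⟨a, ha⟩ := Function.ne_iff.1 k7
    (v.pos ha).trans_le (Finite.le_ciSup (fun a => v (τ a)) a)
  have hc : 0 < v c₀ := k4 ▸ pow_pos (v.pos (k6 _)) 2
  have hM := (sup_mon v k1 k2).1
  have hx : 1 ≤ max 1 (v x) := le_max_left _ _
  have h2 : v c₀ * (⨆ i : Fin (r + 1), v (m.coeff i)) * max 1 (v x) ≤
      2 ^ (r + 1 * 1 + (r + 1)) * c₁ * (⨆ i, v (τ i)) ^ 2 := by
    obtain ⟨i, hi⟩ := exists_eq_ciSup_of_finite (f := fun i : Fin (r + 1) => v (m.coeff i))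
    have d1 : (C c₀ * m).natDegree ≤ r := k2 ▸ natDegree_C_mul_le _ _
    have h3 := fun j => (Jn.gl_div hv (Q := C c₀ * m) (n := 1) (by rw [pow_one]) d1
      (natDegree_X_sub_C_le x) (natDegree_mul_le.trans (add_le_add d1 (natDegree_X_sub_C_le x)))
      (by positivity) (k3 ▸ h1 τ) i j).trans (mul_le_mul_of_nonneg_right (pow_le_pow_left₀
        (by unfold Av.E; split_ifs <;> norm_num)
        (show _ ≤ (2 : ℝ) by unfold Av.E; split_ifs <;> norm_num) _) (by positivity))
    rw [← hi, mul_max_of_nonneg _ _ (by positivity), mul_assoc (2 ^ _ : ℝ)]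
    exact max_le (by simpa using h3 1) (by simpa using h3 0)
  replace h2 := log_le_log (by positivity) h2
  rw [log_mul (by positivity) (by positivity), log_mul (by positivity) (by positivity),
    log_mul (by positivity) (by positivity), log_pow, Nat.cast_ofNat] at h2
  have h3 : ∀ j, m.eval (Q j).1 ≠ 0 ∧ log (v (g (some j))) + log (v (g (some (σ j)))) ≤
      log (v c₀) + log (v (m.eval (Q j).1)) + log (v (Q j).1 + 1) + log (max 1 (v x)) := by
    intro j
    have e := eval_nm τ (hE j)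
    rw [← k5, show ∑ i, τ i * ph (od i) (Q j).1 (-(Q j).2) = g (some (σ j)) by rw [k5, hσ], k3] at e
    simp only [eval_mul, eval_C, eval_sub, eval_X] at e
    have e0 := e.trans_ne (mul_ne_zero (k6 _) (k6 _))
    have e1 := right_ne_zero_of_mul (left_ne_zero_of_mul e0)
    refine ⟨e1, ?_⟩
    have e2 := v.pos e1
    rw [← log_mul (v.ne_zero (k6 _)) (v.ne_zero (k6 _)), ← map_mul, ← e,
      ← log_mul (by positivity) (by positivity), ← log_mul (by positivity) (by positivity),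
      ← log_mul (by positivity) (by positivity)]
    refine log_le_log (v.pos e0) ?_
    rw [map_mul, map_mul, mul_assoc (_ * _)]
    refine mul_le_mul_of_nonneg_left ((v.sub_le_add _ _).trans ?_) (by positivity)
    nlinarith [le_max_right 1 (v x), v.nonneg (Q j).1]
  have h4 := sum_le_sum fun j (_ : j ∈ univ) => (h3 j).2
  simp only [sum_add_distrib, σ.sum_comp fun j => log (v (g (some j))), sum_const, card_univ,
    nsmul_eq_mul] at h4
  have h5 : log (v c₀) = 2 * log (v (g none)) := by rw [k4, log_pow, Nat.cast_ofNat]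
  simp only [lx, log_div hT.ne' (v.ne_zero (k6 _)), Fintype.sum_option, sum_sub_distrib, map_prod,
    log_prod fun j (_ : j ∈ univ) => v.ne_zero (h3 j).1, sum_const, card_univ, nsmul_eq_mul,
    Fintype.card_option, Nat.cast_add, Nat.cast_one]
  have h6 := mul_le_mul_of_nonneg_left h2 (show (0 : ℝ) ≤ Fintype.card ι + 1 by positivity)
  have h7 := log_nonneg hx
  linarith

theorem up {u : AbsoluteValue K ℝ} (hu : Av.Adm u) {ι κ : Type} [Fintype ι] [Fintype κ] (a : ι → K)
    (ξ z : κ → K) {c : K} (hc : c ≠ 0) {d r : ℕ} (hd : 2 * d = Fintype.card ι + 1)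
    (hz : ∀ i, z i ^ 2 = c ^ 2 * ∏ j, (ξ i - a j)) (h0 : ∀ i, z i ≠ 0) (hr : Fintype.card κ = r)
    {m : K[X]} (hm : m = ∏ i, (X - C (ξ i))) :
    2 * ∑ i, lm u d (ξ i) (z i) ≤ (Fintype.card ι + 1) * log (⨆ i : Fin (r + 1), u (m.coeff i)) -
      log (u (∏ j, m.eval (a j))) + ((Fintype.card ι + 1) * (2 * r * log 2) - 2 * r * log (u c)) := by
  obtain ⟨h1, h2⟩ := sup_mon u (m := m) (r := r) (hm ▸ monic_prod_X_sub_C _ _)
    (by rw [hm, natDegree_finsetProd_X_sub_C_eq_card, card_univ, hr])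
  have h3 := ((prod_cmp hu univ ξ).2 _ (zero_le_one.trans h1) (hm ▸ h2)).trans
    (mul_le_mul_of_nonneg_right (pow_le_pow_left₀ (by unfold Av.E; split_ifs <;> norm_num)
      (show _ ≤ (2 : ℝ) by unfold Av.E; split_ifs <;> norm_num) _) (zero_le_one.trans h1))
  replace h3 := log_le_log (by positivity) h3
  rw [log_mul (by positivity) (by positivity), log_pow, log_prod fun _ _ => by positivity,
    card_univ, hr] at h3
  have h4 : ∀ i j, ξ i - a j ≠ 0 := fun i j => prod_ne_zero_iff.1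
    (right_ne_zero_of_mul ((hz i).symm.trans_ne (pow_ne_zero 2 (h0 i)))) j (mem_univ _)
  have h5 : ∀ i, 2 * lm u d (ξ i) (z i) = (Fintype.card ι + 1) * log (max 1 (u (ξ i))) -
      (2 * log (u c) + ∑ j, log (u (ξ i - a j))) := fun i => by
    have e := congrArg (fun t => log (u t)) (hz i)
    simp only [map_pow, map_mul, map_prod] at e
    rw [log_mul (pow_ne_zero _ (u.ne_zero hc)) (prod_ne_zero_iff.2 fun j _ => u.ne_zero (h4 i j)),
      log_pow, log_pow, log_prod fun j _ => u.ne_zero (h4 i j)] at e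
    rw [lm, log_div (by positivity) (u.ne_zero (h0 i)), log_pow, mul_sub, ← mul_assoc,
      show (2 * d : ℝ) = Fintype.card ι + 1 by exact_mod_cast hd]
    exact congrArg _ e
  have h6 : log (u (∏ j, m.eval (a j))) = ∑ i, ∑ j, log (u (ξ i - a j)) := by
    simp only [hm, eval_prod, map_prod, eval_sub, eval_X, eval_C]
    have e : ∀ j i, u (a j - ξ i) ≠ 0 := fun j i => u.map_sub _ _ ▸ u.ne_zero (h4 i j)
    rw [log_prod fun j _ => prod_ne_zero_iff.2 fun i _ => e j i, sum_comm]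
    refine sum_congr rfl fun j _ => (log_prod fun i _ => e j i).trans ?_
    simp only [u.map_sub (a j)]
  have h7 := mul_le_mul_of_nonneg_left h3 (show (0 : ℝ) ≤ Fintype.card ι + 1 by positivity)
  simp only [mul_sum (a := (2 : ℝ)), h5, h6, sum_sub_distrib, sum_add_distrib, sum_const, card_univ,
    hr, nsmul_eq_mul, ← mul_sum]
  push_cast at h7
  linarith

omit [NumberField K] in
theorem lm_pow {L : Type} [Field L] (φ : K →+* L) {v : AbsoluteValue K ℝ} {w : AbsoluteValue L ℝ}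
    {n : ℕ} (h : ∀ a, w (φ a) = v a ^ n) (d : ℕ) (x z : K) :
    lm w d (φ x) (φ z) = n * lm v d x z := by
  have : max 1 (v x ^ n) = max 1 (v x) ^ n := by
    rcases le_total 1 (v x) with e | e
    · rw [max_eq_right e, max_eq_right (one_le_pow₀ e)]
    · rw [max_eq_left e, max_eq_left (pow_le_one₀ (v.nonneg _) e), one_pow]
  rw [lm, lm, h, h, this, ← pow_mul, mul_comm n, pow_mul, ← div_pow, log_pow]

theorem ex_split (p : K[X]) : ∃ (M : Type) (_ : Field M) (_ : NumberField M) (ψ : K →+* M),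
    (p.map ψ).Splits :=
  ⟨p.SplittingField, inferInstance, NumberField.of_module_finite K _, _, SplittingField.splits p⟩

theorem ex_conj {k L : Type} [Field k] [Field L] [Algebra k L] [FiniteDimensional k L]
    (φ : k →+* K) {x : L} (hx : Algebra.adjoin k {x} = ⊤) : ∃ (M : Type) (_ : Field M)
      (_ : NumberField M) (ψ : K →+* M) (κ : Type) (_ : Fintype κ) (σ : κ → L →+* M),
      Fintype.card κ = finrank k L ∧ (∀ i, (σ i).comp (algebraMap k L) = ψ.comp φ) ∧
      ((minpoly k x).map φ).map ψ = ∏ i, (X - C (σ i x)) := by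
  classical
  obtain ⟨M, _, _, ψ, h⟩ := ex_split ((minpoly k x).map φ)
  let _ := (ψ.comp φ).toAlgebra
  have hi : IsIntegral k x := .of_finite k x
  have h1 := ((minpoly.monic hi).map φ).map ψ
  have h2 : ∀ ξ : (((minpoly k x).map φ).map ψ).roots, aeval (ξ : M)
      (minpoly k (PowerBasis.ofAdjoinEqTop hi hx).gen) = 0 := fun ξ => by
    have := (mem_roots h1.ne_zero).1 (Multiset.coe_mem (x := ξ))
    rwa [IsRoot, eval_map, eval₂_map] at this
  refine ⟨M, inferInstance, inferInstance, ψ, _, inferInstance,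
    fun ξ => (PowerBasis.ofAdjoinEqTop hi hx).lift _ (h2 ξ), ?_, fun ξ => AlgHom.comp_algebraMap _,
    (h.eq_prod_roots_of_monic h1).trans ?_⟩
  · rw [Multiset.card_coe, ← h.natDegree_eq_card_roots, natDegree_map, natDegree_map,
      (PowerBasis.ofAdjoinEqTop hi hx).finrank]
    rfl
  · rw [← Multiset.map_univ]
    exact prod_congr rfl fun ξ _ => congrArg (X - C ·) (PowerBasis.lift_gen _ _ (h2 ξ)).symm

omit [NumberField K] in
theorem split_fin [DecidableEq K] {p : K[X]} (h : p.Splits) (hs : p.Separable) :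
    p = C p.leadingCoeff * ∏ a : p.roots.toFinset, (X - C a.1) ∧
      p.roots.toFinset.card = p.natDegree := by
  have h1 := nodup_roots hs
  refine ⟨h.eq_prod_roots.trans (congrArg _ ?_), ?_⟩
  · rw [prod_coe_sort _ fun a => X - C a, prod_eq_multiset_prod, Multiset.toFinset_val,
      Multiset.dedup_eq_self.2 h1]
  · rw [Multiset.toFinset_card_of_nodup h1, h.natDegree_eq_card_roots]

theorem ex_div {f G : K[X]} (hf : f.Monic) (h3 : f.natDegree = 3) (hs : (G * f).Separable) :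
    ∃ (M : Type) (_ : Field M) (_ : NumberField M) (φ : K →+* M) (ι : Type) (_ : Fintype ι)
      (Q : ι → M × M) (σ : ι ≃ ι), Function.Injective Q ∧
      (∀ j, (Q j).2 ^ 2 = (f.map φ).eval (Q j).1) ∧ (∀ j, Q (σ j) = ((Q j).1, -(Q j).2)) ∧
      Fintype.card ι = 2 * G.natDegree + 3 ∧
      (G ^ 2 * f).map φ = C (φ G.leadingCoeff ^ 2) * ∏ j, (X - C (Q j).1) := by
  classical
  obtain ⟨L, _, _, ψ, h⟩ := ex_split (G * f)
  have h0 := (hs.map (f := ψ)).ne_zero
  have hs' := hs.map (f := ψ)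
  rw [Polynomial.map_mul] at h h0 hs'
  obtain ⟨g1, g2⟩ := split_fin (h.of_dvd h0 (dvd_mul_right _ _)) hs'.of_mul_left
  obtain ⟨f1, f2⟩ := split_fin (h.of_dvd h0 (dvd_mul_left _ _)) hs'.of_mul_right
  have hd : ∀ a : (G.map ψ).roots.toFinset, (f.map ψ).eval a.1 ≠ 0 := fun a e => by
    obtain ⟨p, q, hp⟩ := hs'.isCoprime
    have := congrArg (eval a.1) hp
    rw [eval_add, eval_mul, eval_mul, e, (mem_roots'.1 (Multiset.mem_toFinset.1 a.2)).2] at this
    simp at this
  obtain ⟨M, _, _, χ, h'⟩ := ex_split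
    (∏ a : (G.map ψ).roots.toFinset, (X ^ 2 - C ((f.map ψ).eval a.1)))
  have hb : ∀ a : (G.map ψ).roots.toFinset, ∃ b : M, b ^ 2 = χ ((f.map ψ).eval a.1) := fun a => by
    obtain ⟨b, hb⟩ := (h'.of_dvd (Polynomial.map_ne_zero (prod_ne_zero_iff.2 fun _ _ =>
      X_pow_sub_C_ne_zero two_pos _)) (map_dvd χ (dvd_prod_of_mem _ (mem_univ a)))).exists_eval_eq_zero
        (by rw [degree_map, degree_X_pow_sub_C two_pos]; simp)
    exact ⟨b, by simpa [sub_eq_zero] using hb⟩
  choose b hb using hb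
  have b0 : ∀ a, b a ≠ 0 := fun a e => hd a (by simpa [e] using (hb a).symm)
  have r0 : ∀ a : (f.map ψ).roots.toFinset, (f.map ψ).eval a.1 = 0 := fun a =>
    (mem_roots'.1 (Multiset.mem_toFinset.1 a.2)).2
  refine ⟨M, inferInstance, inferInstance, χ.comp ψ,
    ((G.map ψ).roots.toFinset × Bool) ⊕ (f.map ψ).roots.toFinset, inferInstance,
    Sum.elim (fun a => (χ a.1, if a.2 then b a.1 else -b a.1)) fun a => (χ a, 0),
    .sumCongr (.prodCongr (.refl _) .boolNot) (.refl _), ?_, ?_, ?_, ?_, ?_⟩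
  · rintro (⟨a, s⟩ | a) (⟨a', s'⟩ | a') e <;>
      obtain ⟨e1, e2⟩ := Prod.ext_iff.1 e <;> replace e1 := χ.injective e1
    · obtain rfl := Subtype.ext e1
      cases s <;> cases s'
      exacts [rfl, (b0 a (neg_eq_self.1 e2)).elim, (b0 a (neg_eq_self.1 e2.symm)).elim, rfl]
    · exact (hd a (e1 ▸ r0 a')).elim
    · exact (hd a' (e1 ▸ r0 a)).elim
    · rw [Subtype.ext e1]
  · rintro (⟨a, _ | _⟩ | a) <;> simp [← Polynomial.map_map, eval_map_apply, hb, r0]
  · rintro (⟨a, _ | _⟩ | a) <;> simp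
  · simp only [Fintype.card_sum, Fintype.card_prod, Fintype.card_coe, Fintype.card_bool, g2, f2,
      natDegree_map, h3]
    ring
  · rw [← Polynomial.map_map, Polynomial.map_mul, Polynomial.map_pow]
    conv_lhs => rw [g1, f1]
    simp [Fintype.prod_prod_type, Polynomial.map_prod, prod_pow, (hf.map ψ).leadingCoeff, mul_pow,
      mul_assoc]

end Pool.Agent.Lib.MP_651af7_nt.El
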