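import Pool.Agent.Lib.MP_651af7_nt.El.Core
import Pool.Agent.Lib.MP_651af7_nt.El.Loc

/-! Points of degree `r` on an elliptic curve. -/

namespace Pool.Agent.Lib.MP_651af7_nt.El

open Finset Height NumberField Module Polynomial Real
open Rt (Pl av mu)
open Ex (lx)

theorem ph_zero {R : Type} [CommRing R] (x y : R) : ph 0 x y = 1 := by simp [ph]

theorem nm_fac {k L : Type} [Field k] [Field L] [Algebra k L] [FiniteDimensional k L] {f : k[X]}
    (hf : f.Monic) (h3 : f.natDegree = 3) {r : ℕ} (hr : 2 ≤ r) {x y : L} {x' y' : k}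
    {τ : Fin (r + 1) → k} (hd : (minpoly k x).natDegree = r) (hy : y ^ 2 = aeval x f)
    (hy' : y' ^ 2 = f.eval x') (h1 : ∑ i, algebraMap k L (τ i) * ph (od i) x y = 0)
    (h2 : ∑ i, τ i * ph (od i) x' y' = 0) :
    nm f τ = C ((-1) ^ (r + 1) * τ (Fin.last r) ^ 2) * minpoly k x * (X - C x') := by
  have hi : IsIntegral k x := .of_finite k x
  have k1 : minpoly k x ∣ nm f τ := minpoly.dvd k x (by
    rw [← eval_map_algebraMap, map_nm, eval_nm _ (hy.trans (eval_map_algebraMap ..).symm), h1,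
      zero_mul])
  have k2 : X - C x' ∣ nm f τ := dvd_iff_isRoot.2 (by rw [IsRoot, eval_nm _ hy', h2, zero_mul])
  have k3 : IsCoprime (minpoly k x) (X - C x') := (minpoly.irreducible hi).coprime_iff_not_dvd.2
    fun h => by
      have := natDegree_le_of_dvd h (X_sub_C_ne_zero _)
      rw [natDegree_X_sub_C] at this
      omega
  have k4 := (minpoly.monic hi).mul (monic_X_sub_C x')
  have k5 : (minpoly k x * (X - C x')).natDegree = r + 1 := by
    rw [(minpoly.monic hi).natDegree_mul (monic_X_sub_C x'), hd, natDegree_X_sub_C]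
  obtain ⟨k6, k7⟩ := nm_top hf h3 (τ := τ) (i := Fin.last r) fun j hj => (hj.not_ge j.le_last).elim
  rw [show od (Fin.last r) = r + 1 by simp [od]; omega] at k6 k7
  have k8 := eq_leadingCoeff_mul_of_monic_of_dvd_of_natDegree_le k4 (k3.mul_dvd k1 k2)
    (k6.trans k5.ge)
  rw [k8, coeff_C_mul, (congrArg _ k5.symm).trans k4.coeff_natDegree, mul_one] at k7
  rw [mul_assoc, ← k7]
  exact k8

theorem main (k : Type) [Field k] [NumberField k] (f G : k[X]) (hf : f.Monic)
    (h3 : f.natDegree = 3) (hs : (G * f).Separable) (r : ℕ) (hr : 2 ≤ r) (ε : ℝ) (hε : 0 < ε) :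
    ∃ Θ : MvPolynomial (Option (Fin r)) k, Θ ≠ 0 ∧ ∀ N : ℕ, N ≠ 0 → ∃ C : ℝ,
      ∀ (L : Type) [Field L] [NumberField L] [Algebra k L] (x y : L) (x' y' : k) (t : Fin r → k)
        (T : Finset (FinitePlace L)), finrank k L = r → Algebra.adjoin k {x} = ⊤ →
        y ^ 2 = aeval x f → y' ^ 2 = f.eval x' →
        ∑ i : Fin r, algebraMap k L (t i) * ph (i + 2) x y =
          algebraMap k L (∑ i : Fin r, t i * ph (i + 2) x' y') →
        MvPolynomial.eval (fun o => o.elim x' t) Θ ≠ 0 → aeval x G * y ≠ 0 →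
        (∀ w, w ∈ T ↔ w N < 1) →
        ∑ p : Pl T, mu p * lm (av p) (G.natDegree + 2) x (aeval x G * y) +
          (1 - ε) * logHeight₁ x' / 2 ≤ (r + ε) * logHeight₁ x / 2 + C := by
  classical
  obtain ⟨K, _, _, φ, ι, _, Q, σ, hQ, hE, hσ, hc, hG⟩ := ex_div hf h3 hs
  let _ := φ.toAlgebra
  have hf' := hf.map φ
  have h3' := (hf.natDegree_map φ).trans h3
  obtain ⟨δ, d0, d1, d2⟩ : ∃ δ : ℝ, 0 < δ ∧ δ * (r + 2) ≤ ε ∧ δ ≤ 1 := by
    refine ⟨min (ε / (r + 2)) 1, by positivity, ?_, min_le_right _ _⟩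
    rw [← le_div_iff₀ (by positivity)]
    exact min_le_left _ _
  obtain ⟨Θ, h0, H⟩ := core hf' h3' hs.of_mul_right.map hQ hE hr d0
  obtain ⟨μ, hμ⟩ := MvPolynomial.ne_zero_iff.1 h0
  obtain ⟨l, hl⟩ := not_forall.1 (mt (forall_dual_apply_eq_zero_iff k _).1 hμ)
  refine ⟨Av.cf l Θ, MvPolynomial.ne_zero_iff.2 ⟨μ, (Av.coeff_cf l Θ μ).trans_ne hl⟩,
    fun N hN => ?_⟩
  obtain ⟨S, hS⟩ := ex_pl K hN
  obtain ⟨C₀, H⟩ := H S
  choose c hc' using fun p : Pl S => loc (Rt.adm_av p) r hE σ hσ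
  obtain ⟨C₂, H2⟩ := ph_low hf' h3' (r := r) (by omega)
  obtain ⟨C₃, H3⟩ := nm_low hf' h3' (r + 1)
  obtain ⟨κ, hκ, hκ0⟩ : ∃ κ : ℝ, finrank ℚ K = finrank ℚ k * κ ∧ 0 < κ :=
    ⟨finrank k K, by rw [← finrank_mul_finrank ℚ k K, Nat.cast_mul], by
      have := Module.Finite.of_restrictScalars_finite ℚ k K
      exact_mod_cast finrank_pos⟩
  obtain ⟨C₁, hC₁⟩ : ∃ C₁, C₁ = ∑ p : Pl S, mu p * (c p + ((Fintype.card ι + 1) * (2 * r * log 2) -
    2 * r * log (av p (φ G.leadingCoeff)))) := ⟨_, rfl⟩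
  refine ⟨((r + δ) * (2 * (r + 1) * log 2 * finrank ℚ K - C₃) + 2 * C₀ + C₁ - (1 - δ) * C₂) /
    (2 * κ), fun L _ _ _ x y x' y' t T hL hx hy hy' ht hΘ hz hT => ?_⟩
  have := Module.Finite.of_restrictScalars_finite ℚ k L
  have hd : (minpoly k x).natDegree = r :=
    (PowerBasis.ofAdjoinEqTop (.of_finite k x) hx).finrank.symm.trans hL
  have hm := (minpoly.monic (IsIntegral.of_finite k x)).map φ
  obtain ⟨τ, hτ⟩ : ∃ τ : Fin (r + 1) → k, τ = Fin.cons (-∑ i : Fin r, t i * ph (i + 2) x' y') t :=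
    ⟨_, rfl⟩
  have e1 := congrArg (Polynomial.map φ) (nm_fac hf h3 hr (τ := τ) hd hy hy'
    (by simp [hτ, Fin.sum_univ_succ, od, ht, ph_zero, add_assoc])
    (by simp [hτ, Fin.sum_univ_succ, od, ph_zero, add_assoc]))
  rw [map_nm, Polynomial.map_mul, Polynomial.map_mul, map_C, Polynomial.map_sub, map_X, map_C] at e1
  have hy'' : φ y' ^ 2 = (f.map φ).eval (φ x') := by rw [eval_map_apply, ← hy', map_pow]
  obtain ⟨k1, k2, H⟩ := H (φ x') (φ y') (fun i => φ (t i)) (fun i => φ (τ i)) hy''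
    (by
      ext i
      refine Fin.cases ?_ (fun i => ?_) i <;> simp [hτ, map_ph, mul_comm])
    fun e => hΘ (by
      rw [Av.eval_cf, ← map_zero l, ← e]
      congr 3
      ext (_ | _) <;> rfl)
  obtain ⟨g, hg⟩ : ∃ g, g = fun j => fm r Q (φ x') (φ y') j ⬝ᵥ fun i => φ (t i) := ⟨_, rfl⟩
  have g1 : g none = φ (τ (Fin.last r)) := by
    rw [hτ, show Fin.last r = Fin.succ ⟨r - 1, by omega⟩ from Fin.ext (by simp; omega),
      Fin.cons_succ]
    simp only [hg, fm, dotProduct]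
    rw [sum_eq_single ⟨r - 1, by omega⟩ (fun i _ h => by
      rw [if_neg fun e => h (Fin.ext (by simp; omega)), zero_mul]) (by simp)]
    simp [show r - 1 + 1 = r by omega]
  have g2 : ∀ j, g (some j) = ∑ i, φ (τ i) * ph (od i) (Q j).1 (Q j).2 := fun j => by
    simp [hg, hτ, fm, dotProduct, Fin.sum_univ_succ, od, map_ph, mul_comm, mul_sub, ph_zero]
    ring
  obtain ⟨M, _, _, ψ, ι', _, s, m1, m2, m3⟩ := ex_conj φ hx
  rw [hL] at m1
  have z0 : ∀ i, s i (aeval x G * y) ≠ 0 := fun i => (_root_.map_ne_zero _).2 hz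
  have z1 : ∀ i, s i (aeval x G * y) ^ 2 =
      ψ (φ G.leadingCoeff) ^ 2 * ∏ j, (s i x - ψ (Q j).1) := fun i => by
    have e := congrArg (fun p => (p.map ψ).eval (s i x)) hG
    simp only [Polynomial.map_map, ← m2 i] at e
    rw [← Polynomial.map_map, eval_map_apply, eval_map_algebraMap] at e
    rw [← map_pow, mul_pow, hy, ← map_pow, ← map_mul, e]
    simp [Polynomial.map_prod, eval_prod]
  have lc0 : ψ (φ G.leadingCoeff) ≠ 0 := by
    simpa using left_ne_zero_of_mul hs.ne_zero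
  have g0 : ∀ j, g j ≠ 0 := by
    rintro (_ | j)
    · exact g1 ▸ k1
    have e := eval_nm (fun i => φ (τ i)) (hE j)
    rw [← g2, e1] at e
    refine left_ne_zero_of_mul (e.symm.trans_ne ?_)
    simp only [eval_mul, eval_C, eval_sub, eval_X]
    refine mul_ne_zero (mul_ne_zero (by simpa using k1) fun e => ?_) (sub_ne_zero.2 (k2 j))
    replace e := congrArg ψ e
    rw [← eval_map_apply, m3, map_zero, eval_prod, prod_eq_zero_iff] at e
    obtain ⟨i, -, e⟩ := e
    refine pow_ne_zero 2 (z0 i) ((z1 i).trans (mul_eq_zero_of_right _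
      (prod_eq_zero (mem_univ j) ?_)))
    rw [eval_sub, eval_X, eval_C, sub_eq_zero] at e
    rw [e, sub_self]
  have τ0 : (fun i => φ (τ i)) ≠ 0 := fun e => k1 (congrFun e _)
  replace H := H fun j => by simpa only [hg] using g0 j
  obtain ⟨U, hU⟩ := ex_pl M hN
  obtain ⟨β, n, n0, n1, n2⟩ := tr_pl ψ hN hS hU
  have dk : (0 : ℝ) < finrank ℚ k := by exact_mod_cast finrank_pos
  have dM : (0 : ℝ) < finrank ℚ M := by exact_mod_cast finrank_pos
  have r0 : (0 : ℝ) < r := by exact_mod_cast by omega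
  have dL : (finrank ℚ L : ℝ) = finrank ℚ k * r := by
    rw [← finrank_mul_finrank ℚ k L, hL, Nat.cast_mul]
  have l2 : 0 ≤ log 2 := log_nonneg one_le_two
  have a1 : ∀ u : Pl U, 2 * ∑ i, lm (av u) (G.natDegree + 2) (s i x) (s i (aeval x G * y)) ≤
      n u * (2 * ∑ j, lx (av (β u)) (fun i => φ (τ i)) (g j) + (c (β u) +
        ((Fintype.card ι + 1) * (2 * r * log 2) -
          2 * r * log (av (β u) (φ G.leadingCoeff))))) := fun u => by
    have b1 := up (Rt.adm_av u) (fun j => ψ (Q j).1) (fun i => s i x) _ lc0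
      (d := G.natDegree + 2) (by omega) z1 z0 m1 m3
    have b2 := hc' (β u) _ _ _ _ g hm ((natDegree_map φ).trans hd) e1 (by simp [g1]) g2 g0 τ0
    simp only [coeff_map ψ, eval_map_apply, ← map_prod, n1] at b1
    rw [Db.sup_pow _ (fun _ => (av _).nonneg _) (n0 u), log_pow, log_pow, log_pow] at b1
    have b3 : (1 : ℝ) ≤ n u := by exact_mod_cast Nat.pos_of_ne_zero (n0 u)
    have b4 := mul_le_mul_of_nonneg_left b2 (zero_le_one.trans b3)
    have b5 := mul_le_mul_of_nonneg_right b3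
      (show 0 ≤ (Fintype.card ι + 1 : ℝ) * (2 * r * log 2) by positivity)
    linarith
  have a2 := mul_le_mul_of_nonneg_left (sum_le_sum fun u (_ : u ∈ univ) =>
    mul_le_mul_of_nonneg_left (a1 u) (Nat.cast_nonneg (mu u))) (Nat.cast_nonneg (finrank ℚ K))
  rw [n2 fun p => 2 * ∑ j, lx (av p) (fun i => φ (τ i)) (g j) + (c p +
    ((Fintype.card ι + 1) * (2 * r * log 2) - 2 * r * log (av p (φ G.leadingCoeff))))] at a2
  have a3 : ∀ i, finrank ℚ L * ∑ u : Pl U, mu u *
      lm (av u) (G.natDegree + 2) (s i x) (s i (aeval x G * y)) =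
      finrank ℚ M * ∑ p : Pl T, mu p * lm (av p) (G.natDegree + 2) x (aeval x G * y) := fun i => by
    obtain ⟨β, n, -, n1, n2⟩ := tr_pl (s i) hN hT hU
    simp only [fun u => lm_pow (s i) (n1 u)]
    exact n2 fun p => lm (av p) _ _ _
  have a4 := sum_congr rfl fun i (_ : i ∈ univ) => a3 i
  rw [← mul_sum, sum_comm, sum_const, card_univ, m1, nsmul_eq_mul, dL] at a4
  simp only [mul_add _ (2 * _ : ℝ), sum_add_distrib, ← hC₁, mul_left_comm _ (2 : ℝ), ← mul_sum,
    hκ] at a2 a4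
  have a5 := tr_ht ψ fun l : Fin (r + 1 + 1) => (nm (f.map φ) fun i => φ (τ i)).coeff l
  have a6 := ht_prod (univ : Finset (Option ι')) (fun o => o.elim (ψ (φ x')) fun i => s i x)
    fun l : Fin (r + 1 + 1) => l
  have a7 : (fun l : Fin (r + 1 + 1) => ψ ((nm (f.map φ) fun i => φ (τ i)).coeff l)) =
      ψ (φ ((-1) ^ (r + 1) * τ (Fin.last r) ^ 2)) • fun l : Fin (r + 1 + 1) => (∏ o : Option ι',
        (X - C (o.elim (ψ (φ x')) fun i => s i x))).coeff l := by
    ext l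
    rw [← coeff_map, e1, Polynomial.map_mul, Polynomial.map_mul, m3, map_C, mul_assoc, coeff_C_mul,
      Fintype.prod_option, mul_comm (∏ _, _)]
    simp
  rw [a7, logHeight_smul_eq_logHeight _ (by simpa using k1), hκ] at a5
  have a8 := tr_ht₁ (ψ.comp φ) x'
  have a9 := sum_congr rfl fun i (_ : i ∈ univ) => tr_ht₁ (s i) x
  rw [← mul_sum, sum_const, card_univ, m1, nsmul_eq_mul, dL] at a9
  simp only [Fintype.sum_option, Option.elim_none, Option.elim_some, card_univ,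
    Fintype.card_option, m1, Nat.cast_add, Nat.cast_one] at a6
  have a10 := tr_ht₁ φ x'
  rw [hκ, mul_assoc] at a10
  replace a10 := mul_left_cancel₀ dk.ne' a10
  have b1 := H2 _ _ hy''
  have b2 := H3 fun i => φ (τ i)
  rw [RingHom.comp_apply] at a8
  simp only [hg] at a2
  rw [a10] at b1
  generalize ∑ p : Pl T, mu p * lm (av p) (G.natDegree + 2) x (aeval x G * y) = A at *
  have c1 : 2 * κ * A ≤ 2 * ∑ p : Pl S, mu p * ∑ j, lx (av p) (fun i => φ (τ i))
      (fm r Q (φ x') (φ y') j ⬝ᵥ fun i => φ (t i)) + C₁ := by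
    refine le_of_mul_le_mul_left (le_of_mul_le_mul_left ?_ r0) dM
    have := mul_le_mul_of_nonneg_left a2 r0.le
    linear_combination this - 2 * κ * a4
  have c2 : logHeight (fun l : Fin (r + 1 + 1) => (nm (f.map φ) fun i => φ (τ i)).coeff l) ≤
      κ * (logHeight₁ x' + logHeight₁ x) + 2 * (r + 1) * log 2 * finrank ℚ K := by
    refine le_of_mul_le_mul_left (le_of_mul_le_mul_left ?_ r0) dM
    have := mul_le_mul_of_nonneg_left a6 (show 0 ≤ finrank ℚ k * κ * r by positivity)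
    rw [hκ]
    linear_combination this - r * a5 + κ * r * a8 + κ * a9
  refine le_of_mul_le_mul_left ?_ (show 0 < 2 * κ by positivity)
  rw [mul_add _ (_ / _), mul_div_cancel₀ _ (show 2 * κ ≠ 0 by positivity)]
  have c3 := mul_le_mul_of_nonneg_left (b2.trans c2) (show 0 ≤ r + δ by positivity)
  have c4 := mul_le_mul_of_nonneg_left b1 (sub_nonneg.2 d2)
  have c5 := mul_le_mul_of_nonneg_right d1 (mul_nonneg hκ0.le (zero_le_logHeight₁ x'))
  have c6 := mul_le_mul_of_nonneg_right (show δ ≤ ε by nlinarith)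
    (mul_nonneg hκ0.le (zero_le_logHeight₁ x))
  linarith

end Pool.Agent.Lib.MP_651af7_nt.El
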