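import Mathlib

/-! Functions `a(x) + b(x) y` on the curve `y ^ 2 = f(x)`, `f` a monic cubic. -/

namespace Pool.Agent.Lib.MP_651af7_nt.El

open Polynomial Finset

theorem nm_deg {R : Type} [CommRing R] [IsDomain R] {f a b : R[X]} (hf : f.Monic)
    (h3 : f.natDegree = 3) (h : a ≠ 0 ∨ b ≠ 0) : a * a - b * f * b ≠ 0 ∧
      (a ≠ 0 ∧ (a * a - b * f * b).natDegree = 2 * a.natDegree ∨
        b ≠ 0 ∧ (a * a - b * f * b).natDegree = 2 * b.natDegree + 3) := by
  have h1 : (a * a).natDegree = 2 * a.natDegree := by rw [← sq, natDegree_pow]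
  rcases eq_or_ne b 0 with rfl | hb
  · have ha := h.resolve_right (by simp)
    simp only [mul_zero, sub_zero]
    exact ⟨mul_ne_zero ha ha, Or.inl ⟨ha, h1⟩⟩
  have h2 : (b * f * b).natDegree = 2 * b.natDegree + 3 := by
    rw [natDegree_mul (mul_ne_zero hb hf.ne_zero) hb, natDegree_mul hb hf.ne_zero, h3]
    omega
  refine ⟨fun e => ?_, ?_⟩
  · rw [sub_eq_zero.1 e] at h1
    omega
  rcases lt_or_gt_of_ne (show (a * a).natDegree ≠ (b * f * b).natDegree by omega) with h4 | h4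
  · exact Or.inr ⟨hb, (natDegree_sub_eq_right_of_natDegree_lt h4).trans h2⟩
  · refine Or.inl ⟨?_, (natDegree_sub_eq_left_of_natDegree_lt h4).trans h1⟩
    rintro rfl
    simp at h4

variable {K : Type} [Field K] {f a b a' b' : K[X]} {I : Finset (K × K)}

/-- The value of `a(x) + b(x) y`. -/
def vl (a b : K[X]) (z : K × K) : K := a.eval z.1 + b.eval z.1 * z.2

theorem card_le_deg (hI : ∀ z ∈ I, z.2 ^ 2 = f.eval z.1) (h : ∀ z ∈ I, vl a b z = 0)
    (h' : ∀ z ∈ I, vl a' b' z = 0) (h0 : a * b' - a' * b ≠ 0) :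
    I.card ≤ (a * b' - a' * b).natDegree := by
  classical
  refine le_trans ?_ (card_roots' _)
  rw [card_def, ← Multiset.card_map Prod.fst]
  refine Multiset.card_le_card (Multiset.le_iff_count.2 fun x => ?_)
  rw [count_roots, le_rootMultiplicity_iff h0, Multiset.count_map, ← filter_val, ← card_def]
  rcases (I.filter fun z => x = z.1).eq_empty_or_nonempty with e | ⟨z, hz'⟩
  · simp [e]
  obtain ⟨hz, rfl⟩ := mem_filter.1 hz'
  have k1 := h z hz
  have k2 := h' z hz
  by_cases e : I.filter (fun w => z.1 = w.1) ⊆ {z}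
  · refine (pow_dvd_pow _ ((card_le_card e).trans_eq (card_singleton z))).trans ?_
    rw [pow_one, dvd_iff_isRoot, IsRoot, eval_sub, eval_mul, eval_mul]
    unfold vl at k1 k2
    linear_combination b'.eval z.1 * k1 - b.eval z.1 * k2
  obtain ⟨w, hw, hne⟩ := not_subset.1 e
  obtain ⟨hw, ew⟩ := mem_filter.1 hw
  have hy : z.2 - w.2 ≠ 0 := fun e => hne (mem_singleton.2 (Prod.ext ew.symm (sub_eq_zero.1 e).symm))
  have k : ∀ {a b : K[X]}, vl a b z = 0 → vl a b w = 0 → X - C z.1 ∣ a ∧ X - C z.1 ∣ b := by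
    intro a b k1 k2
    rw [vl, ← ew] at k2
    rw [vl] at k1
    have : b.eval z.1 = 0 := (mul_eq_zero.1 (show b.eval z.1 * (z.2 - w.2) = 0 by
      linear_combination k1 - k2)).resolve_right hy
    exact ⟨dvd_iff_isRoot.2 (by rwa [this, zero_mul, add_zero] at k1), dvd_iff_isRoot.2 this⟩
  have e2 : I.filter (fun w => z.1 = w.1) ⊆ {z, (z.1, -z.2)} := fun u hu => by
    obtain ⟨hu, eu⟩ := mem_filter.1 hu
    have := sq_eq_sq_iff_eq_or_eq_neg.1 ((hI u hu).trans (eu ▸ (hI z hz).symm))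
    simpa [Prod.ext_iff, eu] using this
  refine (pow_dvd_pow _ ((card_le_card e2).trans card_le_two)).trans ?_
  rw [sq]
  exact dvd_sub (mul_dvd_mul (k k1 (h w hw)).1 (k k2 (h' w hw)).2)
    (mul_dvd_mul (k k2 (h' w hw)).1 (k k1 (h w hw)).2)

theorem card_le_nm (hf : f.Monic) (h3 : f.natDegree = 3) (hI : ∀ z ∈ I, z.2 ^ 2 = f.eval z.1)
    (h : ∀ z ∈ I, vl a b z = 0) (h0 : a ≠ 0 ∨ b ≠ 0) :
    a ≠ 0 ∧ I.card ≤ 2 * a.natDegree ∨ b ≠ 0 ∧ I.card ≤ 2 * b.natDegree + 3 := by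
  obtain ⟨h1, h2⟩ := nm_deg hf h3 h0
  have := card_le_deg (a' := b * f) (b' := a) hI h (fun z hz => by
    have := h z hz
    unfold vl at this ⊢
    rw [eval_mul, ← hI z hz]
    linear_combination z.2 * this) h1
  exact h2.imp (And.imp_right this.trans_eq) (And.imp_right this.trans_eq)

theorem ex_van (I : Finset (K × K)) {p q : ℕ} (h : I.card < p + q) : ∃ a b : K[X],
    (a ≠ 0 ∨ b ≠ 0) ∧ a.degree < p ∧ b.degree < q ∧ ∀ z ∈ I, vl a b z = 0 := by
  have h1 := (degreeLT.basisProd K p q).finiteDimensional_of_finite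
  let φ : (degreeLT K p × degreeLT K q) →ₗ[K] I → K :=
    { toFun := fun s z => vl s.1 s.2 z
      map_add' := fun s t => funext fun z => by simp [vl]; ring
      map_smul' := fun c s => funext fun z => by simp [vl]; ring }
  obtain ⟨⟨a, b⟩, h2, h3⟩ := (Submodule.ne_bot_iff _).1 (LinearMap.ker_ne_bot_of_finrank_lt (f := φ)
    (by rw [Module.finrank_eq_card_basis (degreeLT.basisProd K p q)]; simpa using h))
  refine ⟨a, b, ?_, mem_degreeLT.1 a.2, mem_degreeLT.1 b.2, fun z hz => congrFun h2 ⟨z, hz⟩⟩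
  by_contra! h4
  exact h3 (Prod.ext (Subtype.ext h4.1) (Subtype.ext h4.2))

/-- Fewer than `n` points impose independent conditions on the functions of order at most `n`. -/
theorem rr (hf : f.Monic) (h3 : f.natDegree = 3) (hI : ∀ z ∈ I, z.2 ^ 2 = f.eval z.1) {z : K × K}
    (hz : z ∈ I) {n : ℕ} (hn : I.card < n) : ∃ a b : K[X], a.degree < (n / 2 + 1 : ℕ) ∧
      b.degree < ((n - 1) / 2 : ℕ) ∧ (∀ w ∈ I, w ≠ z → vl a b w = 0) ∧ vl a b z ≠ 0 := by
  classical
  have h1 := card_erase_add_one hz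
  rcases Nat.eq_zero_or_pos (I.erase z).card with h2 | h2
  · refine ⟨1, 0, by rw [degree_one]; exact_mod_cast Nat.succ_pos _, by simp, fun w hw h => ?_,
      by simp [vl]⟩
    exact (notMem_empty w (card_eq_zero.1 h2 ▸ mem_erase.2 ⟨h, hw⟩)).elim
  obtain ⟨a, b, k0, k1, k2, k3⟩ := ex_van (I.erase z) (p := (I.card + 1) / 2 + 1)
    (q := I.card / 2 - 1) (by omega)
  obtain ⟨a', b', l0, l1, l2, l3⟩ := ex_van (I.erase z) (p := (I.card + 1) / 2)
    (q := I.card / 2 - 1 + 1) (by omega)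
  by_contra! h
  have k4 : ∀ {a b : K[X]} {p q : ℕ}, a.degree < p → b.degree < q → p ≤ n / 2 + 1 →
      q ≤ (n - 1) / 2 → (∀ w ∈ I.erase z, vl a b w = 0) → ∀ w ∈ I, vl a b w = 0 := by
    intro a b p q k1 k2 hp hq k3 w hw
    have k5 := fun w hw hne => k3 w (mem_erase.2 ⟨hne, hw⟩)
    by_cases e : w = z
    · exact e ▸ h a b (k1.trans_le (by exact_mod_cast hp)) (k2.trans_le (by exact_mod_cast hq)) k5
    · exact k5 w hw e
  have k5 := k4 k1 k2 (by omega) (by omega) k3
  have l5 := k4 l1 l2 (by omega) (by omega) l3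
  have d : ∀ {a : K[X]} {p : ℕ}, a.degree < p → a ≠ 0 → a.natDegree < p := fun h h0 =>
    (natDegree_lt_iff_degree_lt h0).2 h
  obtain ⟨ha, k6⟩ := (card_le_nm hf h3 hI k5 k0).resolve_right fun h => by
    have := d k2 h.1
    omega
  obtain ⟨hb, l6⟩ := (card_le_nm hf h3 hI l5 l0).resolve_left fun h => by
    have := d l1 h.1
    omega
  have k7 := d k1 ha
  have l7 := d l2 hb
  have e1 := natDegree_mul ha hb
  have e2 : (a' * b).natDegree < (a * b').natDegree := by
    rcases eq_or_ne (a' * b) 0 with e | e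
    · rw [e, natDegree_zero]
      omega
    have k8 := d l1 (left_ne_zero_of_mul e)
    have l8 := d k2 (right_ne_zero_of_mul e)
    have := natDegree_mul_le (p := a') (q := b)
    omega
  have := card_le_deg hI k5 l5 fun e => e2.ne (by rw [sub_eq_zero.1 e])
  rw [natDegree_sub_eq_left_of_natDegree_lt e2] at this
  omega

end Pool.Agent.Lib.MP_651af7_nt.El
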